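import Mathlib
import Pool.Agent.helper45.Inc.Unc

/-!
# Semilattices of breadth two: finitely many inclusive subvarieties
-/

universe u v

open Pool.Agent.helper9.Incl Pool.Agent.helper45.Inc

namespace Pool.Agent.helper2.Inc

/-- semilattices -/
def SL (S : Type u) [Semigroup S] : Prop := (∀ x y : S, x * y = y * x) ∧ ∀ x : S, x * x = x

/-- every product of three elements is a product of two of them -/
def BTwo (S : Type u) [Semigroup S] : Prop :=
  ∀ x y z : S, x * y * z = x * y ∨ x * y * z = x * z ∨ x * y * z = y * z

section
variable {T : Type u} [Semigroup T]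

theorem two_letters (hS : SL T) (hb : BTwo T) (φ : Word →ₙ* T) (u : Word) :
    ∃ p ∈ lts u, ∃ q ∈ lts u, φ (FreeSemigroup.of p) * φ (FreeSemigroup.of q) = φ u := by
  induction u using FreeSemigroup.recOnMul with
  | ih1 x => exact ⟨x, by simp [lts_of], x, by simp [lts_of], hS.2 _⟩
  | ih2 a b _ hb' =>
    obtain ⟨p, hp, q, hq, h⟩ := hb'
    have ha : a ∈ lts (FreeSemigroup.of a * b) := by
      rw [lts_mul, lts_of]; exact Finset.mem_union_left _ (Finset.mem_singleton_self _)
    have hp' : p ∈ lts (FreeSemigroup.of a * b) := by
      rw [lts_mul]; exact Finset.mem_union_right _ hp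
    have hq' : q ∈ lts (FreeSemigroup.of a * b) := by
      rw [lts_mul]; exact Finset.mem_union_right _ hq
    rw [map_mul, ← h, ← mul_assoc]
    rcases hb (φ (FreeSemigroup.of a)) (φ (FreeSemigroup.of p)) (φ (FreeSemigroup.of q)) with
      h1 | h1 | h1
    · exact ⟨a, ha, p, hp', h1.symm⟩
    · exact ⟨a, ha, q, hq', h1.symm⟩
    · exact ⟨p, hp', q, hq', h1.symm⟩

theorem close (hS : SL T) (φ : Word →ₙ* T) (w : Word) (t : T)
    (h1 : ∀ y ∈ lts w, φ (FreeSemigroup.of y) * t = t) {p r : ℕ} (hp : p ∈ lts w) (hr : r ∈ lts w)
    (hpr : φ (FreeSemigroup.of p) * φ (FreeSemigroup.of r) = t) : φ w = t := by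
  have h2 := absorb hS.1 hS.2 φ w p hp
  have h3 := absorb hS.1 hS.2 φ w r hr
  have h4 := absorb' φ t w h1
  rw [← h4, hS.1, ← hpr, mul_assoc, h3, h2]

theorem live (hS : SL T) (φ : Word →ₙ* T) (u : Word) :
    ∀ y ∈ lts u, φ (FreeSemigroup.of y) * φ u = φ u := fun y hy => absorb hS.1 hS.2 φ u y hy

/-- evaluation below a letter -/
theorem ev_le (hS : SL T) (g : ℕ → T) (w : Word) {y : ℕ} (hy : y ∈ lts w) :
    g y * FreeSemigroup.lift g w = FreeSemigroup.lift g w := by
  have := absorb hS.1 hS.2 (FreeSemigroup.lift g) w y hy
  rwa [FreeSemigroup.lift_of] at this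

theorem ev_ge (g : ℕ → T) (w : Word) (s : T) (h : ∀ y ∈ lts w, g y * s = s) :
    FreeSemigroup.lift g w * s = s := by
  apply absorb'
  intro y hy
  rw [FreeSemigroup.lift_of]
  exact h y hy

theorem ev_eq (hS : SL T) (g : ℕ → T) (w : Word) (s : T) (h : ∀ y ∈ lts w, g y * s = s)
    {p r : ℕ} (hp : p ∈ lts w) (hr : r ∈ lts w) (hpr : g p * g r = s) :
    FreeSemigroup.lift g w = s := by
  apply close hS (FreeSemigroup.lift g) w s
  · intro y hy
    rw [FreeSemigroup.lift_of]
    exact h y hy
  · exact hp
  · exact hr
  · rw [FreeSemigroup.lift_of, FreeSemigroup.lift_of]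
    exact hpr

end

/-- the seven types -/
def Q (i : Fin 7) (S : Type u) [Semigroup S] : Prop :=
  match i with
  | 0 => Nonempty S
  | 1 => ∃ e s : S, e * s = e ∧ e ≠ s
  | 2 => ∃ e s z : S, e * s = e ∧ e ≠ s ∧ s * z = s ∧ s ≠ z
  | 3 => ∃ x y t : S, x * y = t ∧ t ≠ x ∧ t ≠ y
  | 4 => ∃ e x y t : S, x * y = t ∧ t ≠ x ∧ t ≠ y ∧ e * t = e ∧ e ≠ t
  | 5 => ∃ x y z t : S, x * y = t ∧ t ≠ x ∧ t ≠ y ∧ z * x = x ∧ z * y = y
  | 6 => ∃ e x y z t : S, x * y = t ∧ t ≠ x ∧ t ≠ y ∧ z * x = x ∧ z * y = y ∧ e * t = e ∧ e ≠ t

/-- the evaluation `φ` of `u` is controlled by an evaluation in `S` -/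
def Ctl {T : Type u} [Semigroup T] (φ : Word →ₙ* T) (u : Word) (S : Type u) [Semigroup S] :
    Prop := ∃ ψ : Word →ₙ* S, ∀ w, ψ u = ψ w → φ u = φ w

/-- two values `e < s` -/
theorem sep_low {S : Type u} [Semigroup S] (hS : SL S) (g : ℕ → S) (w : Word) {e s : S}
    (he : e * s = e) (hne : e ≠ s) (hw : FreeSemigroup.lift g w = s) {y : ℕ} (hy : y ∈ lts w)
    (hg : g y = e) : False := by
  have := ev_le hS g w hy
  rw [hw, hg, he] at this
  exact hne this

theorem key {T : Type u} [Semigroup T] (hT : SL T) (hb : BTwo T) (φ : Word →ₙ* T) (u : Word) :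
    ∃ i : Fin 7, Q i T ∧ ∀ (S : Type u) [Semigroup S], SL S → Q i S → Ctl φ u S := by
  classical
  set f : ℕ → T := fun y => φ (FreeSemigroup.of y) with hf
  set t := φ u with ht
  have hlive : ∀ y ∈ lts u, f y * t = t := live hT φ u
  have hclose : ∀ w : Word, (∀ y ∈ lts w, f y * t = t) → ∀ p ∈ lts w, ∀ r ∈ lts w,
      f p * f r = t → t = φ w := fun w h1 p hp r hr hpr => (close hT φ w t h1 hp hr hpr).symm
  have hcomm := hT.1
  have hidem := hT.2
  by_cases hk1 : ∃ p ∈ lts u, f p = t
  · obtain ⟨p, hp, hpt⟩ := hk1
    have hpp : f p * f p = t := by rw [hidem, hpt]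
    by_cases hd : ∃ d, f d * t ≠ t
    · obtain ⟨d, hd⟩ := hd
      have hdt : f d * t * t = f d * t := by rw [mul_assoc, hidem]
      by_cases hz : ∃ z ∈ lts u, f z ≠ t
      · -- chain of three elements
        obtain ⟨z, hz, hzt⟩ := hz
        refine ⟨2, ⟨f d * t, t, f z, hdt, hd, ?_, Ne.symm hzt⟩, ?_⟩
        · rw [hcomm]; exact hlive z hz
        · rintro S _ hS ⟨e', s', z', h1, h2, h3, h4⟩
          let g : ℕ → S := fun y => if y ∈ lts u then (if y = p then s' else z') else e'
          have gu : ∀ y ∈ lts u, g y * s' = s' := by
            intro y hy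
            simp only [g, if_pos hy]
            split_ifs
            · exact hS.2 _
            · rw [hS.1]; exact h3
          have gp : g p = s' := by simp only [g, if_pos hp, if_true]
          have hu : FreeSemigroup.lift g u = s' :=
            ev_eq hS g u s' gu hp hp (by rw [gp, hS.2])
          refine ⟨FreeSemigroup.lift g, ?_⟩
          intro w hw
          rw [hu] at hw
          have hw' := hw.symm
          have hsub : ∀ y ∈ lts w, y ∈ lts u := by
            intro y hy
            by_contra hcon
            exact sep_low hS g w h1 h2 hw' hy (by simp only [g, if_neg hcon])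
          have hpw : p ∈ lts w := by
            by_contra hcon
            have h5 := ev_ge g w z' (by
              intro y hy
              have : y ≠ p := fun h => hcon (h ▸ hy)
              simp only [g, if_pos (hsub y hy), if_neg this]
              exact hS.2 _)
            rw [hw', h3] at h5
            exact h4 h5
          exact hclose w (fun y hy => hlive y (hsub y hy)) p hpw p hpw hpp
      · push Not at hz
        refine ⟨1, ⟨f d * t, t, hdt, hd⟩, ?_⟩
        rintro S _ hS ⟨e', s', h1, h2⟩
        let g : ℕ → S := fun y => if y ∈ lts u then s' else e'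
        have gu : ∀ y ∈ lts u, g y = s' := by
          intro y hy
          simp only [g, if_pos hy]
        have hu : FreeSemigroup.lift g u = s' :=
          ev_eq hS g u s' (fun y hy => by rw [gu y hy, hS.2]) hp hp (by rw [gu p hp, hS.2])
        refine ⟨FreeSemigroup.lift g, ?_⟩
        intro w hw
        rw [hu] at hw
        have hw' := hw.symm
        have hsub : ∀ y ∈ lts w, y ∈ lts u := by
          intro y hy
          by_contra hcon
          exact sep_low hS g w h1 h2 hw' hy (by simp only [g, if_neg hcon])
        obtain ⟨y, hy⟩ := lts_nonempty w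
        exact hclose w (fun y hy => hlive y (hsub y hy)) y hy y hy
          (by rw [hidem, hz y (hsub y hy)])
    · push Not at hd
      by_cases hz : ∃ z, f z ≠ t
      · obtain ⟨z, hz⟩ := hz
        refine ⟨1, ⟨t, f z, ?_, Ne.symm hz⟩, ?_⟩
        · rw [hcomm]; exact hd z
        · rintro S _ hS ⟨e', s', h1, h2⟩
          let g : ℕ → S := fun y => if y = p then e' else s'
          have gp : g p = e' := by simp only [g, if_true]
          have hu : FreeSemigroup.lift g u = e' := by
            refine ev_eq hS g u e' (fun y hy => ?_) hp hp (by rw [gp, hS.2])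
            simp only [g]
            split_ifs
            · exact hS.2 _
            · rw [hS.1]; exact h1
          refine ⟨FreeSemigroup.lift g, ?_⟩
          intro w hw
          rw [hu] at hw
          have hpw : p ∈ lts w := by
            by_contra hcon
            have h5 := ev_ge g w s' (by
              intro y hy
              have : y ≠ p := fun h => hcon (h ▸ hy)
              simp only [g, if_neg this]
              exact hS.2 _)
            rw [← hw, h1] at h5
            exact h2 h5
          exact hclose w (fun y _ => hd y) p hpw p hpw hpp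
      · push Not at hz
        refine ⟨0, ⟨t⟩, ?_⟩
        rintro S _ hS ⟨s⟩
        refine ⟨FreeSemigroup.lift (fun _ => s), ?_⟩
        intro w _
        obtain ⟨y, hy⟩ := lts_nonempty w
        exact hclose w (fun y _ => hd y) y hy y hy (by rw [hidem, hz y])
  · push Not at hk1
    obtain ⟨p, hp, q, hq, hpq⟩ := two_letters hT hb φ u
    change f p * f q = t at hpq
    have hpt := hk1 p hp
    have hqt := hk1 q hq
    by_cases hd : ∃ d, f d * t ≠ t
    · obtain ⟨d, hd⟩ := hd
      have hdt : f d * t * t = f d * t := by rw [mul_assoc, hidem]
      by_cases hc : ∃ y1 ∈ lts u, ∃ y2 ∈ lts u, ∃ y3 ∈ lts u,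
          f y1 * f y2 ≠ t ∧ f y2 * f y3 ≠ t ∧ f y1 * f y3 = t
      · obtain ⟨y1, m1, y2, m2, y3, m3, c1, c2, c3⟩ := hc
        refine ⟨6, ⟨f d * t, f y1 * f y2, f y2 * f y3, f y2, t, ?_, Ne.symm c1, Ne.symm c2,
          ?_, ?_, hdt, hd⟩, ?_⟩
        · have := hlive y2 m2
          calc f y1 * f y2 * (f y2 * f y3) = f y1 * (f y2 * f y2) * f y3 := by
                simp only [mul_assoc]
            _ = f y2 * (f y1 * f y3) := by rw [hidem, hcomm (f y1), mul_assoc]
            _ = t := by rw [c3, this]
        · rw [hcomm (f y1), ← mul_assoc, hidem]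
        · rw [← mul_assoc, hidem]
        · rintro S _ hS ⟨e', x', y', z', t', h1, h2, h3, h4, h5, h6, h7⟩
          let g : ℕ → S := fun y => if y ∈ lts u then (if y = p then x' else
            if f y * f p = t then y' else z') else e'
          have hxt : x' * t' = t' := by rw [← h1, ← mul_assoc, hS.2]
          have hyt : y' * t' = t' := by rw [← h1, hS.1 x', ← mul_assoc, hS.2]
          have hzt : z' * t' = t' := by rw [← h1, ← mul_assoc, h4]
          have gp : g p = x' := by simp only [g, if_pos hp, if_true]
          have gq : g q = y' := by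
            have hne : q ≠ p := by
              rintro rfl
              rw [hidem] at hpq
              exact hpt hpq
            simp only [g, if_pos hq, if_neg hne]
            rw [if_pos]
            rw [hcomm]; exact hpq
          have hu : FreeSemigroup.lift g u = t' := by
            refine ev_eq hS g u t' (fun y hy => ?_) hp hq (by rw [gp, gq, h1])
            simp only [g, if_pos hy]
            split_ifs
            · exact hxt
            · exact hyt
            · exact hzt
          refine ⟨FreeSemigroup.lift g, ?_⟩
          intro w hw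
          rw [hu] at hw
          have hw' := hw.symm
          have hsub : ∀ y ∈ lts w, y ∈ lts u := by
            intro y hy
            by_contra hcon
            exact sep_low hS g w h6 h7 hw' hy (by simp only [g, if_neg hcon])
          have hpw : p ∈ lts w := by
            by_contra hcon
            have h8 := ev_ge g w y' (by
              intro y hy
              have : y ≠ p := fun h => hcon (h ▸ hy)
              simp only [g, if_pos (hsub y hy), if_neg this]
              split_ifs
              · exact hS.2 _
              · exact h5)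
            rw [hw', hS.1, hyt] at h8
            exact h3 h8
          have hrw : ∃ r ∈ lts w, f r * f p = t := by
            by_contra hcon
            push Not at hcon
            have h8 := ev_ge g w x' (by
              intro y hy
              simp only [g, if_pos (hsub y hy), if_neg (hcon y hy)]
              split_ifs
              · exact hS.2 _
              · exact h4)
            rw [hw', hS.1, hxt] at h8
            exact h2 h8
          obtain ⟨r, hr, hrp⟩ := hrw
          exact hclose w (fun y hy => hlive y (hsub y hy)) r hr p hpw hrp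
      · push Not at hc
        refine ⟨4, ⟨f d * t, f p, f q, t, hpq, Ne.symm hpt, Ne.symm hqt, hdt, hd⟩, ?_⟩
        rintro S _ hS ⟨e', x', y', t', h1, h2, h3, h6, h7⟩
        let g : ℕ → S := fun y => if y ∈ lts u then (if f y * f p = t then y' else x') else e'
        have hxt : x' * t' = t' := by rw [← h1, ← mul_assoc, hS.2]
        have hyt : y' * t' = t' := by rw [← h1, hS.1 x', ← mul_assoc, hS.2]
        have gp : g p = x' := by
          simp only [g, if_pos hp]
          rw [if_neg]
          rw [hidem]; exact hpt
        have gq : g q = y' := by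
          simp only [g, if_pos hq]
          rw [if_pos]
          rw [hcomm]; exact hpq
        have hu : FreeSemigroup.lift g u = t' := by
          refine ev_eq hS g u t' (fun y hy => ?_) hp hq (by rw [gp, gq, h1])
          simp only [g, if_pos hy]
          split_ifs
          · exact hyt
          · exact hxt
        refine ⟨FreeSemigroup.lift g, ?_⟩
        intro w hw
        rw [hu] at hw
        have hw' := hw.symm
        have hsub : ∀ y ∈ lts w, y ∈ lts u := by
          intro y hy
          by_contra hcon
          exact sep_low hS g w h6 h7 hw' hy (by simp only [g, if_neg hcon])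
        have hpw : ∃ y ∈ lts w, f y * f p ≠ t := by
          by_contra hcon
          push Not at hcon
          have h8 := ev_ge g w y' (by
            intro y hy
            simp only [g, if_pos (hsub y hy), if_pos (hcon y hy)]
            exact hS.2 _)
          rw [hw', hS.1, hyt] at h8
          exact h3 h8
        have hrw : ∃ r ∈ lts w, f r * f p = t := by
          by_contra hcon
          push Not at hcon
          have h8 := ev_ge g w x' (by
            intro y hy
            simp only [g, if_pos (hsub y hy), if_neg (hcon y hy)]
            exact hS.2 _)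
          rw [hw', hS.1, hxt] at h8
          exact h2 h8
        obtain ⟨y, hy, hyp⟩ := hpw
        obtain ⟨r, hr, hrp⟩ := hrw
        refine hclose w (fun y hy => hlive y (hsub y hy)) r hr y hy ?_
        by_contra hcon
        exact hc r (hsub r hr) y (hsub y hy) p hp hcon hyp hrp
    · push Not at hd
      by_cases hc : ∃ y1 y2 y3 : ℕ, f y1 * f y2 ≠ t ∧ f y2 * f y3 ≠ t ∧ f y1 * f y3 = t
      · obtain ⟨y1, y2, y3, c1, c2, c3⟩ := hc
        refine ⟨5, ⟨f y1 * f y2, f y2 * f y3, f y2, t, ?_, Ne.symm c1, Ne.symm c2,
          ?_, ?_⟩, ?_⟩
        · have := hd y2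
          calc f y1 * f y2 * (f y2 * f y3) = f y1 * (f y2 * f y2) * f y3 := by
                simp only [mul_assoc]
            _ = f y2 * (f y1 * f y3) := by rw [hidem, hcomm (f y1), mul_assoc]
            _ = t := by rw [c3, this]
        · rw [hcomm (f y1), ← mul_assoc, hidem]
        · rw [← mul_assoc, hidem]
        · rintro S _ hS ⟨x', y', z', t', h1, h2, h3, h4, h5⟩
          let g : ℕ → S := fun y => if y = p then x' else if f y * f p = t then y' else z'
          have hxt : x' * t' = t' := by rw [← h1, ← mul_assoc, hS.2]
          have hyt : y' * t' = t' := by rw [← h1, hS.1 x', ← mul_assoc, hS.2]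
          have hzt : z' * t' = t' := by rw [← h1, ← mul_assoc, h4]
          have gp : g p = x' := by simp only [g, if_true]
          have gq : g q = y' := by
            have hne : q ≠ p := by
              rintro rfl
              rw [hidem] at hpq
              exact hpt hpq
            simp only [g, if_neg hne]
            rw [if_pos]
            rw [hcomm]; exact hpq
          have hu : FreeSemigroup.lift g u = t' := by
            refine ev_eq hS g u t' (fun y hy => ?_) hp hq (by rw [gp, gq, h1])
            simp only [g]
            split_ifs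
            · exact hxt
            · exact hyt
            · exact hzt
          refine ⟨FreeSemigroup.lift g, ?_⟩
          intro w hw
          rw [hu] at hw
          have hw' := hw.symm
          have hpw : p ∈ lts w := by
            by_contra hcon
            have h8 := ev_ge g w y' (by
              intro y hy
              have : y ≠ p := fun h => hcon (h ▸ hy)
              simp only [g, if_neg this]
              split_ifs
              · exact hS.2 _
              · exact h5)
            rw [hw', hS.1, hyt] at h8
            exact h3 h8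
          have hrw : ∃ r ∈ lts w, f r * f p = t := by
            by_contra hcon
            push Not at hcon
            have h8 := ev_ge g w x' (by
              intro y hy
              simp only [g, if_neg (hcon y hy)]
              split_ifs
              · exact hS.2 _
              · exact h4)
            rw [hw', hS.1, hxt] at h8
            exact h2 h8
          obtain ⟨r, hr, hrp⟩ := hrw
          exact hclose w (fun y _ => hd y) r hr p hpw hrp
      · push Not at hc
        refine ⟨3, ⟨f p, f q, t, hpq, Ne.symm hpt, Ne.symm hqt⟩, ?_⟩
        rintro S _ hS ⟨x', y', t', h1, h2, h3⟩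
        let g : ℕ → S := fun y => if f y * f p = t then y' else x'
        have hxt : x' * t' = t' := by rw [← h1, ← mul_assoc, hS.2]
        have hyt : y' * t' = t' := by rw [← h1, hS.1 x', ← mul_assoc, hS.2]
        have gp : g p = x' := by
          simp only [g]
          rw [if_neg]
          rw [hidem]; exact hpt
        have gq : g q = y' := by
          simp only [g]
          rw [if_pos]
          rw [hcomm]; exact hpq
        have hu : FreeSemigroup.lift g u = t' := by
          refine ev_eq hS g u t' (fun y hy => ?_) hp hq (by rw [gp, gq, h1])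
          simp only [g]
          split_ifs
          · exact hyt
          · exact hxt
        refine ⟨FreeSemigroup.lift g, ?_⟩
        intro w hw
        rw [hu] at hw
        have hw' := hw.symm
        have hpw : ∃ y ∈ lts w, f y * f p ≠ t := by
          by_contra hcon
          push Not at hcon
          have h8 := ev_ge g w y' (by
            intro y hy
            simp only [g, if_pos (hcon y hy)]
            exact hS.2 _)
          rw [hw', hS.1, hyt] at h8
          exact h3 h8
        have hrw : ∃ r ∈ lts w, f r * f p = t := by
          by_contra hcon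
          push Not at hcon
          have h8 := ev_ge g w x' (by
            intro y hy
            simp only [g, if_neg (hcon y hy)]
            exact hS.2 _)
          rw [hw', hS.1, hxt] at h8
          exact h2 h8
        obtain ⟨y, hy, hyp⟩ := hpw
        obtain ⟨r, hr, hrp⟩ := hrw
        refine hclose w (fun y _ => hd y) r hr y hy ?_
        by_contra hcon
        exact hc r y p hcon hyp hrp

/-- **Finiteness.** -/
theorem finite_of_btwo {V : SgClass.{u}}
    (hV : ∀ (S : Type u) [Semigroup S], V S → SL S ∧ BTwo S) : (InclSub V).Finite := by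
  let F : SgClass.{u} → Set (Fin 7) := fun W => {i | ∃ (S : Type u) (_ : Semigroup S), W S ∧ Q i S}
  have key2 : ∀ W₁ ∈ InclSub V, ∀ W₂ ∈ InclSub V, F W₁ = F W₂ →
      ∀ (S : Type u) [Semigroup S], W₁ S → W₂ S := by
    rintro W₁ ⟨_, h1⟩ W₂ ⟨h2, h2'⟩ hF S _ hS
    apply mem_of_div h2
    intro u φ
    obtain ⟨i, hi, hctl⟩ := key (hV S (h1 S hS)).1 (hV S (h1 S hS)).2 φ u
    have hmem : i ∈ F W₁ := ⟨S, inferInstance, hS, hi⟩
    rw [hF] at hmem
    obtain ⟨S', _, hS', hi'⟩ := hmem
    obtain ⟨ψ, hψ⟩ := hctl S' (hV S' (h2' S' hS')).1 hi'
    exact ⟨S', inferInstance, hS', ψ, hψ⟩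
  have hinj : Set.InjOn F (InclSub V) := by
    intro W₁ hW₁ W₂ hW₂ hF
    funext S _
    exact propext ⟨key2 W₁ hW₁ W₂ hW₂ hF S, key2 W₂ hW₂ W₁ hW₁ hF.symm S⟩
  exact Set.Finite.of_injOn (f := F) (t := Set.univ) (fun _ _ => Set.mem_univ _) hinj
    Set.finite_univ

end Pool.Agent.helper2.Inc
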