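import Mathlib

/-!
# Short arcs of a finite circle
-/

universe u

namespace Pool.Agent.helper2.Inc

/-- the arc `a, a + 1, …, a + ℓ` of `ZMod n` -/
def arc (n : ℕ) (a : ZMod n) (l : ℕ) : Set (ZMod n) := {x | (x - a).val ≤ l}

theorem mem_arc {n : ℕ} {a : ZMod n} {l : ℕ} {x : ZMod n} : x ∈ arc n a l ↔ (x - a).val ≤ l :=
  Iff.rfl

variable {n : ℕ} [NeZero n]

theorem val_sub_ge (x a b : ZMod n) (h : (b - a).val ≤ (x - a).val) :
    (x - b).val = (x - a).val - (b - a).val := by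
  have : x - b = (x - a) - (b - a) := by ring
  rw [this, ZMod.val_sub h]

theorem val_sub_lt (x a b : ZMod n) (h : (x - a).val < (b - a).val) :
    (x - b).val = n + (x - a).val - (b - a).val := by
  have hb := ZMod.val_lt (b - a)
  have e : x - b = ((n + (x - a).val - (b - a).val : ℕ) : ZMod n) := by
    rw [Nat.cast_sub (by omega), Nat.cast_add, ZMod.natCast_self, ZMod.natCast_zmod_val,
      ZMod.natCast_zmod_val]
    ring
  rw [e, ZMod.val_cast_of_lt (by omega)]

theorem val_swap (a b : ZMod n) (h : a ≠ b) : (a - b).val = n - (b - a).val := by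
  have h0 : (b - a).val ≠ 0 := by
    rw [Ne, ZMod.val_eq_zero, sub_eq_zero]
    exact fun h' => h h'.symm
  have h1 := val_sub_lt a a b (by rw [sub_self, ZMod.val_zero]; omega)
  rw [sub_self, ZMod.val_zero, add_zero] at h1
  exact h1

theorem inter1 {L : ℕ} (hL : 2 * L < n) {a b : ZMod n} {l m : ℕ} (hl : l ≤ L) (hm : m ≤ L)
    (h : (b - a).val ≤ l) : arc n a l ∩ arc n b m = arc n b (min (l - (b - a).val) m) := by
  ext x
  simp only [Set.mem_inter_iff, mem_arc]
  have hx := ZMod.val_lt (x - a)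
  rcases le_or_gt (b - a).val (x - a).val with h1 | h1
  · rw [val_sub_ge x a b h1]
    constructor
    · rintro ⟨h2, h3⟩
      rw [le_min_iff]; omega
    · intro h2
      rw [le_min_iff] at h2; omega
  · rw [val_sub_lt x a b h1]
    constructor
    · rintro ⟨h2, h3⟩; omega
    · intro h2
      rw [le_min_iff] at h2; omega

theorem inter3 {a b : ZMod n} {l m : ℕ} (h : l < (b - a).val) (h' : m < (a - b).val) :
    arc n a l ∩ arc n b m = ∅ := by
  ext x
  simp only [Set.mem_inter_iff, mem_arc, Set.mem_empty_iff_false, iff_false]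
  rintro ⟨h2, h3⟩
  have hab : a ≠ b := by
    rintro rfl
    rw [sub_self, ZMod.val_zero] at h
    omega
  have h4 := val_swap a b hab
  have h5 := val_sub_lt x a b (by omega)
  have h6 := ZMod.val_lt (b - a)
  omega

/-- empty or a short arc -/
def IsA (n L : ℕ) (s : Set (ZMod n)) : Prop := s = ∅ ∨ ∃ a l, l ≤ L ∧ s = arc n a l

theorem IsA.inter {L : ℕ} (hL : 2 * L < n) {s t : Set (ZMod n)} (hs : IsA n L s)
    (ht : IsA n L t) : IsA n L (s ∩ t) := by
  rcases hs with rfl | ⟨a, l, hl, rfl⟩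
  · left; simp
  rcases ht with rfl | ⟨b, m, hm, rfl⟩
  · left; simp
  rcases le_or_gt (b - a).val l with h | h
  · right
    exact ⟨b, _, (min_le_right _ _).trans hm, inter1 hL hl hm h⟩
  · rcases le_or_gt (a - b).val m with h' | h'
    · right
      refine ⟨a, min (m - (a - b).val) l, (min_le_right _ _).trans hl, ?_⟩
      rw [Set.inter_comm]
      exact inter1 hL hm hl h'
    · left
      exact inter3 h h'

/-- the trace of an arc on another one is a segment -/
theorem seg {L : ℕ} (hL : 2 * L < n) {a : ZMod n} {l : ℕ} (hl : l ≤ L) {t : Set (ZMod n)}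
    (ht : IsA n L t) (hne : (arc n a l ∩ t).Nonempty) : ∃ α β : ℕ, α ≤ β ∧ β ≤ l ∧
      ∀ x, x ∈ arc n a l ∩ t ↔ α ≤ (x - a).val ∧ (x - a).val ≤ β := by
  rcases ht with rfl | ⟨b, m, hm, rfl⟩
  · simp at hne
  rcases le_or_gt (b - a).val l with h | h
  · refine ⟨(b - a).val, min l ((b - a).val + m), ?_, min_le_left _ _, ?_⟩
    · rw [le_min_iff]; omega
    · intro x
      simp only [Set.mem_inter_iff, mem_arc]
      have hx := ZMod.val_lt (x - a)
      rcases le_or_gt (b - a).val (x - a).val with h1 | h1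
      · rw [val_sub_ge x a b h1, le_min_iff]; omega
      · rw [val_sub_lt x a b h1, le_min_iff]; omega
  · rcases le_or_gt (a - b).val m with h' | h'
    · refine ⟨0, min l (m - (a - b).val), Nat.zero_le _, min_le_left _ _, ?_⟩
      intro x
      simp only [Set.mem_inter_iff, mem_arc]
      have hx := ZMod.val_lt (x - a)
      have hab : a ≠ b := by
        rintro rfl
        rw [sub_self, ZMod.val_zero] at h
        omega
      have h4 := val_swap a b hab
      have h6 := ZMod.val_lt (b - a)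
      rcases le_or_gt (b - a).val (x - a).val with h1 | h1
      · rw [val_sub_ge x a b h1, le_min_iff]; omega
      · rw [val_sub_lt x a b h1, le_min_iff]; omega
    · rw [inter3 h h'] at hne
      simp at hne

/-- an arc seen from one of its points -/
theorem around {L : ℕ} (hL : 2 * L < n) {t : Set (ZMod n)} (ht : IsA n L t) {x : ZMod n}
    (hx : x ∈ t) : ∃ l r : ℕ, l + r ≤ L ∧ ∀ y, y ∈ t ↔ (y - x).val ≤ r ∨ (x - y).val ≤ l := by
  rcases ht with rfl | ⟨a, m, hm, rfl⟩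
  · simp at hx
  rw [mem_arc] at hx
  refine ⟨(x - a).val, m - (x - a).val, by omega, ?_⟩
  intro y
  rw [mem_arc]
  have hy := ZMod.val_lt (y - a)
  by_cases hxy : x = y
  · subst hxy
    simp [hx]
  have h1 := val_swap x y hxy
  rcases le_or_gt (x - a).val (y - a).val with h2 | h2
  · have h3 := val_sub_ge y a x h2
    have h4 := ZMod.val_lt (y - x)
    omega
  · have h3 := val_sub_lt y a x h2
    omega

/-- **Breadth two at nonempty sets.** -/
theorem breadth {L : ℕ} (hL : 2 * L < n) {I : Type} (Λ : Finset I) (hΛ : Λ.Nonempty)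
    (A : I → Set (ZMod n)) (hA : ∀ i ∈ Λ, IsA n L (A i)) {x : ZMod n} (hx : ∀ i ∈ Λ, x ∈ A i) :
    ∃ i ∈ Λ, ∃ j ∈ Λ, ∀ k ∈ Λ, A i ∩ A j ⊆ A k := by
  classical
  have h1 : ∀ i : I, ∃ l r : ℕ, i ∈ Λ → l + r ≤ L ∧ ∀ y, y ∈ A i ↔ (y - x).val ≤ r ∨
      (x - y).val ≤ l := by
    intro i
    by_cases hi : i ∈ Λ
    · obtain ⟨l, r, h⟩ := around hL (hA i hi) (hx i hi)
      exact ⟨l, r, fun _ => h⟩
    · exact ⟨0, 0, fun h => absurd h hi⟩
  choose l r h using h1
  obtain ⟨i, hi, hmini⟩ := Λ.exists_min_image r hΛ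
  obtain ⟨j, hj, hminj⟩ := Λ.exists_min_image l hΛ
  refine ⟨i, hi, j, hj, ?_⟩
  rintro k hk y ⟨hyi, hyj⟩
  rw [(h i hi).2] at hyi
  rw [(h j hj).2] at hyj
  rw [(h k hk).2]
  have a1 := hmini k hk
  have a2 := hminj k hk
  have a3 := (h i hi).1
  have a4 := (h j hj).1
  rcases hyi with h2 | h2
  · left; omega
  · rcases hyj with h3 | h3
    · by_cases hxy : x = y
      · subst hxy; left; simp
      · have := val_swap x y hxy
        have := ZMod.val_lt (y - x)
        omega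
    · right; omega

/-- **Helly number three.** -/
theorem helly {L : ℕ} (hL : 2 * L < n) {I : Type} (Λ : Finset I) (hΛ : Λ.Nonempty)
    (A : I → Set (ZMod n)) (hA : ∀ i ∈ Λ, IsA n L (A i)) (hx : ∀ x, ∃ i ∈ Λ, x ∉ A i) :
    ∃ i ∈ Λ, ∃ j ∈ Λ, ∃ k ∈ Λ, A i ∩ A j ∩ A k = ∅ := by
  classical
  obtain ⟨i, hi⟩ := hΛ
  rcases hA i hi with h0 | ⟨a, m, hm, ha⟩
  · exact ⟨i, hi, i, hi, i, hi, by rw [h0]; simp⟩
  by_cases hne : ∃ j ∈ Λ, A i ∩ A j = ∅
  · obtain ⟨j, hj, hij⟩ := hne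
    exact ⟨i, hi, j, hj, j, hj, by rw [hij]; simp⟩
  push Not at hne
  have h1 : ∀ j : I, ∃ α β : ℕ, j ∈ Λ → α ≤ β ∧ β ≤ m ∧
      ∀ x, x ∈ A i ∩ A j ↔ α ≤ (x - a).val ∧ (x - a).val ≤ β := by
    intro j
    by_cases hj : j ∈ Λ
    · have := hne j hj
      rw [ha] at this
      obtain ⟨α, β, h⟩ := seg hL hm (hA j hj) this
      rw [← ha] at h
      exact ⟨α, β, fun _ => h⟩
    · exact ⟨0, 0, fun h => absurd h hj⟩
  choose α β h using h1
  obtain ⟨j, hj, hmaxj⟩ := Λ.exists_max_image α ⟨i, hi⟩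
  obtain ⟨k, hk, hmink⟩ := Λ.exists_min_image β ⟨i, hi⟩
  refine ⟨i, hi, j, hj, k, hk, ?_⟩
  by_contra hcon
  rw [← Ne, ← Set.nonempty_iff_ne_empty] at hcon
  obtain ⟨x, ⟨hxi, hxj⟩, hxk⟩ := hcon
  have h2 := ((h j hj).2.2 x).mp ⟨hxi, hxj⟩
  have h3 := ((h k hk).2.2 x).mp ⟨hxi, hxk⟩
  obtain ⟨p, hp, hxp⟩ := hx x
  have h4 := hmaxj p hp
  have h5 := hmink p hp
  exact hxp (((h p hp).2.2 x).mpr ⟨by omega, by omega⟩).2

end Pool.Agent.helper2.Inc
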