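import Mathlib
import Pool.Agent.helper2.Inc.Arc

/-!
# The winding number of a family of short arcs
-/

universe u

namespace Pool.Agent.helper2.Inc

theorem uniq {n' L' : ℕ} [NeZero n'] (hL' : 2 * L' < n') {a b : ℤ} (ha : |a| ≤ L') (hb : |b| ≤ L')
    (h : (a : ZMod n') = b) : a = b := by
  have h1 : (n' : ℤ) ∣ a - b := by
    rw [← ZMod.intCast_zmod_eq_zero_iff_dvd, Int.cast_sub, h, sub_self]
  have h2 : |a - b| < n' := by
    rw [abs_le] at ha hb
    rw [abs_lt]
    omega
  have h3 := Int.eq_zero_of_abs_lt_dvd h1 h2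
  omega

theorem winding {n L n' L' : ℕ} [NeZero n] [NeZero n'] (hL0 : 0 < L) (hn : n ≤ 3 * L)
    (h2n : 2 * L ≤ n)
    (hL' : 2 * L' < n') (hlt : n * L' < n' * L) (b : ZMod n → ZMod n') (l : ZMod n → ℕ)
    (hl : ∀ y, l y ≤ L') (q : ZMod n → ZMod n')
    (hq : ∀ (y : ZMod n) (k : ℕ), k ≤ L → (q (y + k) - b y).val ≤ l y) :
    ∃ z : ZMod n', z ∈ arc n' (b 0) (l 0) ∧ z ∈ arc n' (b (L : ℕ)) (l (L : ℕ)) ∧
      z ∈ arc n' (b ((2 * L : ℕ) : ZMod n)) (l ((2 * L : ℕ) : ZMod n)) := by
  classical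
  let c : ZMod n → ℕ → ℤ := fun y k => ((q (y + k) - b y).val : ℤ)
  have hc0 : ∀ y k, 0 ≤ c y k := fun y k => Int.natCast_nonneg _
  have hcl : ∀ y k, k ≤ L → c y k ≤ l y := fun y k hk => Int.ofNat_le.mpr (hq y k hk)
  have hcL : ∀ y k, k ≤ L → c y k ≤ L' := fun y k hk =>
    (hcl y k hk).trans (by exact_mod_cast hl y)
  have hcz : ∀ y k, (c y k : ZMod n') = q (y + k) - b y := by
    intro y k
    simp only [c]
    rw [Int.cast_natCast, ZMod.natCast_zmod_val]
  let s : ZMod n → ℤ := fun j => c j 1 - c j 0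
  have hs : ∀ j, (s j : ZMod n') = q (j + 1) - q j := by
    intro j
    simp only [s]
    rw [Int.cast_sub, hcz, hcz]
    push_cast
    rw [add_zero]; ring
  have hsabs : ∀ j, |s j| ≤ L' := by
    intro j
    have h1 := hc0 j 1
    have h2 := hc0 j 0
    have h3 := hcL j 1 hL0
    have h4 := hcL j 0 (Nat.zero_le _)
    simp only [s]
    rw [abs_le]; omega
  have hstep : ∀ y k, k < L → s (y + (k : ℕ)) = c y (k + 1) - c y k := by
    intro y k hk
    apply uniq hL' (hsabs _)
    · have h1 := hc0 y (k + 1)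
      have h2 := hc0 y k
      have h3 := hcL y (k + 1) hk
      have h4 := hcL y k hk.le
      rw [abs_le]; omega
    · rw [hs, Int.cast_sub, hcz, hcz]
      push_cast
      rw [← add_assoc]; ring
  have hwin : ∀ y m, m ≤ L → ∑ k ∈ Finset.range m, s (y + (k : ℕ)) = c y m - c y 0 := by
    intro y m hm
    induction m with
    | zero => simp
    | succ m ih =>
      rw [Finset.sum_range_succ, ih (by omega), hstep y m (by omega)]; ring
  -- the total
  set S := ∑ y : ZMod n, s y with hS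
  have hSd : (n' : ℤ) ∣ S := by
    rw [← ZMod.intCast_zmod_eq_zero_iff_dvd, hS, Int.cast_sum]
    simp only [hs]
    rw [Finset.sum_sub_distrib, sub_eq_zero]
    exact Equiv.sum_comp (Equiv.addRight (1 : ZMod n)) q
  have hLS : (L : ℤ) * S = ∑ y : ZMod n, (c y L - c y 0) := by
    have h1 : ∑ y : ZMod n, (c y L - c y 0) =
        ∑ y : ZMod n, ∑ k ∈ Finset.range L, s (y + (k : ℕ)) :=
      Finset.sum_congr rfl fun y _ => (hwin y L le_rfl).symm
    rw [h1, Finset.sum_comm]
    have h2 : ∀ k ∈ Finset.range L, ∑ y : ZMod n, s (y + (k : ℕ)) = S := fun k _ =>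
      Equiv.sum_comp (Equiv.addRight ((k : ℕ) : ZMod n)) s
    rw [Finset.sum_congr rfl h2, Finset.sum_const, Finset.card_range, nsmul_eq_mul]
  have hLSabs : |(L : ℤ) * S| ≤ n * L' := by
    rw [hLS]
    calc |∑ y : ZMod n, (c y L - c y 0)| ≤ ∑ y : ZMod n, |c y L - c y 0| :=
          Finset.abs_sum_le_sum_abs _ _
      _ ≤ ∑ _y : ZMod n, (L' : ℤ) := by
          apply Finset.sum_le_sum
          intro y _
          have h1 := hc0 y L
          have h2 := hc0 y 0
          have h3 := hcL y L le_rfl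
          have h4 := hcL y 0 (Nat.zero_le _)
          rw [abs_le]; omega
      _ = n * L' := by
          rw [Finset.sum_const, Finset.card_univ, ZMod.card, nsmul_eq_mul]
  have hS0 : S = 0 := by
    by_contra hne
    have h1 : (n' : ℤ) ≤ |S| := Int.le_of_dvd (abs_pos.mpr hne) ((dvd_abs _ _).mpr hSd)
    have h2 : (L : ℤ) * n' ≤ n * L' := by
      calc (L : ℤ) * n' ≤ L * |S| := by
            apply mul_le_mul_of_nonneg_left h1 (Int.natCast_nonneg _)
        _ = |(L : ℤ) * S| := by rw [abs_mul, Nat.abs_cast]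
        _ ≤ n * L' := hLSabs
    have h3 : (n : ℤ) * L' < n' * L := by exact_mod_cast hlt
    rw [mul_comm (L : ℤ)] at h2
    exact absurd h2 (not_le.mpr h3)
  -- the lift
  let P : ℕ → ℤ := fun j => ∑ i ∈ Finset.range j, s ((i : ℕ) : ZMod n)
  have hP0 : P 0 = 0 := by simp [P]
  have hPn : P n = 0 := by
    rw [← hS0, hS]
    simp only [P]
    rw [← Fin.sum_univ_eq_sum_range (fun i : ℕ => s ((i : ℕ) : ZMod n)) n]
    obtain ⟨m, rfl⟩ : ∃ m, n = m + 1 := ⟨n - 1, by have := NeZero.ne n; omega⟩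
    apply Finset.sum_congr rfl
    intro i _
    congr 1
    exact Fin.cast_val_eq_self i
  have hPadd : ∀ y m : ℕ, m ≤ L → P (y + m) = P y + c (y : ℕ) m - c (y : ℕ) 0 := by
    intro y m hm
    have h1 := hwin ((y : ℕ) : ZMod n) m hm
    simp only [P]
    rw [Finset.sum_range_add]
    have h2 : ∑ x ∈ Finset.range m, s ((y + x : ℕ) : ZMod n) =
        ∑ k ∈ Finset.range m, s (((y : ℕ) : ZMod n) + (k : ℕ)) := by
      apply Finset.sum_congr rfl
      intro k _
      rw [Nat.cast_add]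
    rw [h2, h1]; ring
  have hPz : ∀ y : ℕ, (P y : ZMod n') = q (y : ℕ) - q 0 := by
    intro y
    induction y with
    | zero => rw [hP0]; simp
    | succ y ih =>
      have : P (y + 1) = P y + s ((y : ℕ) : ZMod n) := by
        simp only [P]
        rw [Finset.sum_range_succ]
      rw [this, Int.cast_add, ih, hs, Nat.cast_add, Nat.cast_one]
      ring
  -- the three intervals
  let m : ℕ → ℤ := fun y => P y - c (y : ℕ) 0
  have hm : ∀ y k : ℕ, k ≤ L → m y ≤ P (y + k) ∧ P (y + k) ≤ m y + l (y : ℕ) := by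
    intro y k hk
    rw [hPadd y k hk]
    have h1 := hc0 (y : ℕ) k
    have h2 := hcl (y : ℕ) k hk
    simp only [m]
    constructor <;> omega
  have hpt : ∀ (z : ℤ) (y : ℕ), m y ≤ z → z ≤ m y + l (y : ℕ) →
      (z : ZMod n') + q 0 ∈ arc n' (b (y : ℕ)) (l (y : ℕ)) := by
    intro z y h1 h2
    rw [mem_arc]
    have h3 : (z : ZMod n') + q 0 - b (y : ℕ) = (((z - m y).toNat : ℕ) : ZMod n') := by
      have h4 : (((z - m y).toNat : ℕ) : ZMod n') = ((z - m y : ℤ) : ZMod n') := by
        rw [← Int.cast_natCast, Int.toNat_of_nonneg (by omega)]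
      rw [h4]
      simp only [m]
      rw [Int.cast_sub, Int.cast_sub, hPz, hcz]
      push_cast
      rw [add_zero]; ring
    have h5 : (l (y : ℕ) : ℤ) ≤ L' := by exact_mod_cast hl (y : ℕ)
    rw [h3, ZMod.val_cast_of_lt (by omega)]
    omega
  have a0 := hm 0 0 (Nat.zero_le _)
  have a1 := hm 0 L le_rfl
  have b0 := hm L 0 (Nat.zero_le _)
  have b1 := hm L L le_rfl
  have c0 := hm (2 * L) 0 (Nat.zero_le _)
  have c1 := hm (2 * L) (n - 2 * L) (by omega)
  rw [show 2 * L + (n - 2 * L) = n by omega, hPn] at c1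
  rw [add_zero] at a0 b0 c0
  rw [zero_add] at a1
  rw [show L + L = 2 * L by ring] at b1
  rw [hP0] at a0
  let z := max (m 0) (max (m L) (m (2 * L)))
  have z1 : m 0 ≤ z := le_max_left _ _
  have z2 : m L ≤ z := (le_max_left _ _).trans (le_max_right _ _)
  have z3 : m (2 * L) ≤ z := (le_max_right _ _).trans (le_max_right _ _)
  refine ⟨(z : ZMod n') + q 0, ?_, ?_, ?_⟩
  · have := hpt z 0 z1 (max_le (by omega) (max_le (by omega) (by omega)))
    rwa [Nat.cast_zero] at this
  · exact hpt z L z2 (max_le (by omega) (max_le (by omega) (by omega)))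
  · exact hpt z (2 * L) z3 (max_le (by omega) (max_le (by omega) (by omega)))

end Pool.Agent.helper2.Inc
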