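import Mathlib
import Pool.Agent.helper45.Inc.Unc
import Pool.Agent.helper9.Incl.Count
import Pool.Agent.helper2.Inc.Arc
import Pool.Agent.helper2.Inc.Wind

/-!
# The semilattices of short arcs of a finite circle
-/

universe u v

open Pool.Agent.helper9.Incl Pool.Agent.helper45.Inc

namespace Pool.Agent.helper2.Inc

/-- the semilattice of arcs with at most `L` steps of the circle with `2 * L + e + 1` points, and
the empty set, under intersection -/
structure TA (L e : ℕ) : Type u where
  /-- the set -/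
  s : Set (ZMod (2 * L + e + 1))
  /-- it is empty or a short arc -/
  h : IsA (2 * L + e + 1) L s

namespace TA
variable {L e : ℕ}

theorem ext' {x y : TA.{u} L e} (h : x.s = y.s) : x = y := by
  cases x; cases y; cases h; rfl

instance : Semigroup (TA.{u} L e) where
  mul x y := ⟨x.s ∩ y.s, x.h.inter (by omega) y.h⟩
  mul_assoc _ _ _ := ext' (Set.inter_assoc _ _ _)

theorem mul_s (x y : TA.{u} L e) : (x * y).s = x.s ∩ y.s := rfl

theorem comm (x y : TA.{u} L e) : x * y = y * x := ext' (Set.inter_comm _ _)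

theorem idem (x : TA.{u} L e) : x * x = x := ext' (Set.inter_self _)

/-- the evaluation of a word -/
theorem ev (φ : Word →ₙ* TA.{u} L e) (w : Word) (x : ZMod (2 * L + e + 1)) :
    x ∈ (φ w).s ↔ ∀ y ∈ lts w, x ∈ (φ (FreeSemigroup.of y)).s := by
  induction w using FreeSemigroup.recOnMul with
  | ih1 a => rw [lts_of]; simp
  | ih2 a b ha hb =>
    rw [map_mul, mul_s, Set.mem_inter_iff, ha, hb, lts_mul]
    constructor
    · rintro ⟨h1, h2⟩ y hy
      rcases Finset.mem_union.mp hy with hy | hy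
      · exact h1 y hy
      · exact h2 y hy
    · intro h
      exact ⟨fun y hy => h y (Finset.mem_union_left _ hy),
        fun y hy => h y (Finset.mem_union_right _ hy)⟩

end TA

/-! ### Membership: the cube -/

/-- `f` embeds the semilattice of all subsets of a three-element set under union. -/
def IsCube {S : Type u} [Semigroup S] (f : Finset (Fin 3) → S) : Prop :=
  Function.Injective f ∧ ∀ s t : Finset (Fin 3), f s * f t = f (s ∪ t)

theorem ev_cube {S : Type u} [Semigroup S] {f : Finset (Fin 3) → S} (hf : IsCube f)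
    (P : ℕ → Finset (Fin 3)) (w : Word) :
    FreeSemigroup.lift (fun y => f (P y)) w = f ((lts w).biUnion P) := by
  induction w using FreeSemigroup.recOnMul with
  | ih1 x => rw [FreeSemigroup.lift_of, lts_of, Finset.singleton_biUnion]
  | ih2 a b ha hb => rw [map_mul, ha, hb, lts_mul, hf.2, Finset.union_biUnion]

theorem mem_of_cube {V : SgClass.{u}} (hV : IsInclVariety V) {S : Type u} [Semigroup S] (hS : V S)
    {f : Finset (Fin 3) → S} (hf : IsCube f) (L e : ℕ) : V (TA.{u} L e) := by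
  classical
  apply mem_of_div hV
  intro u φ
  refine ⟨S, inferInstance, hS, ?_⟩
  have hA : ∀ y ∈ lts u, IsA (2 * L + e + 1) L (φ (FreeSemigroup.of y)).s := fun y _ =>
    (φ (FreeSemigroup.of y)).h
  rcases Set.eq_empty_or_nonempty (φ u).s with h0 | ⟨x, hx⟩
  · -- three letters
    obtain ⟨i, hi, j, hj, k, hk, hijk⟩ := helly (by omega) (lts u) (lts_nonempty u)
      (fun y => (φ (FreeSemigroup.of y)).s) hA (by
        intro x
        by_contra hcon
        push Not at hcon
        have := (TA.ev φ u x).mpr hcon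
        rw [h0] at this
        exact this)
    let P : ℕ → Finset (Fin 3) := fun y => Finset.univ.filter fun c => y = ![i, j, k] c
    refine ⟨FreeSemigroup.lift (fun y => f (P y)), ?_⟩
    intro w hw
    rw [ev_cube hf, ev_cube hf] at hw
    have h1 := hf.1 hw
    have h2 : ∀ c : Fin 3, ![i, j, k] c ∈ lts w := by
      intro c
      have h3 : c ∈ (lts u).biUnion P := by
        rw [Finset.mem_biUnion]
        refine ⟨![i, j, k] c, ?_, ?_⟩
        · fin_cases c
          · exact hi
          · exact hj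
          · exact hk
        · simp only [P, Finset.mem_filter, Finset.mem_univ, true_and]
      rw [h1, Finset.mem_biUnion] at h3
      obtain ⟨y, hy, hyc⟩ := h3
      simp only [P, Finset.mem_filter, Finset.mem_univ, true_and] at hyc
      rw [← hyc]; exact hy
    apply TA.ext'
    rw [h0]
    symm
    rw [Set.eq_empty_iff_forall_notMem]
    intro x hx
    rw [TA.ev] at hx
    have h4 : x ∈ (φ (FreeSemigroup.of i)).s ∩ (φ (FreeSemigroup.of j)).s ∩
        (φ (FreeSemigroup.of k)).s := ⟨⟨hx i (h2 0), hx j (h2 1)⟩, hx k (h2 2)⟩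
    rw [hijk] at h4
    exact h4
  · -- two letters
    rw [TA.ev] at hx
    obtain ⟨i, hi, j, hj, hij⟩ := breadth (by omega) (lts u) (lts_nonempty u)
      (fun y => (φ (FreeSemigroup.of y)).s) hA hx
    let P : ℕ → Finset (Fin 3) := fun y => Finset.univ.filter fun c => (c = 0 ∧ y = i) ∨
      (c = 1 ∧ y = j) ∨ (c = 2 ∧ ¬ (φ u).s ⊆ (φ (FreeSemigroup.of y)).s)
    have hP : ∀ y c, c ∈ P y ↔ (c = 0 ∧ y = i) ∨
      (c = 1 ∧ y = j) ∨ (c = 2 ∧ ¬ (φ u).s ⊆ (φ (FreeSemigroup.of y)).s) := by
      intro y c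
      simp only [P, Finset.mem_filter, Finset.mem_univ, true_and]
    refine ⟨FreeSemigroup.lift (fun y => f (P y)), ?_⟩
    intro w hw
    rw [ev_cube hf, ev_cube hf] at hw
    have h1 := hf.1 hw
    have hiw : i ∈ lts w := by
      have h3 : (0 : Fin 3) ∈ (lts u).biUnion P := by
        rw [Finset.mem_biUnion]
        exact ⟨i, hi, (hP _ _).mpr (Or.inl ⟨rfl, rfl⟩)⟩
      rw [h1, Finset.mem_biUnion] at h3
      obtain ⟨y, hy, hyc⟩ := h3
      rcases (hP _ _).mp hyc with ⟨_, rfl⟩ | ⟨h, _⟩ | ⟨h, _⟩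
      · exact hy
      · exact absurd h (by decide)
      · exact absurd h (by decide)
    have hjw : j ∈ lts w := by
      have h3 : (1 : Fin 3) ∈ (lts u).biUnion P := by
        rw [Finset.mem_biUnion]
        exact ⟨j, hj, (hP _ _).mpr (Or.inr (Or.inl ⟨rfl, rfl⟩))⟩
      rw [h1, Finset.mem_biUnion] at h3
      obtain ⟨y, hy, hyc⟩ := h3
      rcases (hP _ _).mp hyc with ⟨h, _⟩ | ⟨_, rfl⟩ | ⟨h, _⟩
      · exact absurd h (by decide)
      · exact hy
      · exact absurd h (by decide)
    have hlw : ∀ y ∈ lts w, (φ u).s ⊆ (φ (FreeSemigroup.of y)).s := by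
      intro y hy
      by_contra hcon
      have h3 : (2 : Fin 3) ∈ (lts w).biUnion P := by
        rw [Finset.mem_biUnion]
        exact ⟨y, hy, (hP _ _).mpr (Or.inr (Or.inr ⟨rfl, hcon⟩))⟩
      rw [← h1, Finset.mem_biUnion] at h3
      obtain ⟨y', hy', hyc⟩ := h3
      rcases (hP _ _).mp hyc with ⟨h, _⟩ | ⟨h, _⟩ | ⟨_, h⟩
      · exact absurd h (by decide)
      · exact absurd h (by decide)
      · apply h
        intro z hz
        exact (TA.ev φ u z).mp hz y' hy'
    apply TA.ext'
    apply Set.Subset.antisymm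
    · intro z hz
      rw [TA.ev]
      intro y hy
      exact hlw y hy hz
    · intro z hz
      rw [TA.ev] at hz ⊢
      intro y hy
      exact hij y hy ⟨hz i hiw, hz j hjw⟩

/-! ### Non-membership -/

theorem exists_word (s : Finset ℕ) (hs : s.Nonempty) : ∃ w : Word, lts w = s := by
  classical
  induction hs using Finset.Nonempty.cons_induction with
  | singleton a => exact ⟨FreeSemigroup.of a, lts_of a⟩
  | cons a s ha hs ih =>
    obtain ⟨w, hw⟩ := ih
    refine ⟨FreeSemigroup.of a * w, ?_⟩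
    rw [lts_mul, lts_of, hw, Finset.cons_eq_insert]
    rfl

theorem wind_false {n L : ℕ} [NeZero n] {L' e' : ℕ} (hL0 : 0 < L) (h2 : 2 * L < n)
    (h3 : n ≤ 3 * L) (hlt : n * L' < (2 * L' + e' + 1) * L) (ψ : Word →ₙ* TA.{u} L' e')
    (hcon : ∀ w, ψ (FreeSemigroup.of 0 * FreeSemigroup.of L * FreeSemigroup.of (2 * L)) = ψ w →
      ∀ x : ZMod n, ¬ ∀ y ∈ lts w, (x - (y : ℕ)).val ≤ L) : False := by
  classical
  set u : Word := FreeSemigroup.of 0 * FreeSemigroup.of L * FreeSemigroup.of (2 * L) with hu'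
  have hu : ∀ y, y ∈ lts u ↔ y = 0 ∨ y = L ∨ y = 2 * L := by
    intro y
    simp only [u, lts_mul, lts_of, Finset.mem_union, Finset.mem_singleton, or_assoc]
  have hvn : ∀ m : ℕ, m < n → ((m : ℕ) : ZMod n).val = m := fun m hm => ZMod.val_cast_of_lt hm
  -- common points
  have F2 : ((0 : ZMod n) - ((2 * L : ℕ) : ZMod n)).val ≤ L := by
    have hne : (0 : ZMod n) ≠ ((2 * L : ℕ) : ZMod n) := by
      intro h
      have := hvn (2 * L) h2
      rw [← h, ZMod.val_zero] at this
      omega
    rw [val_swap _ _ hne, sub_zero, hvn _ h2]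
    omega
  have F3 : (((L : ℕ) : ZMod n) - ((0 : ℕ) : ZMod n)).val ≤ L := by
    rw [Nat.cast_zero, sub_zero, hvn L (by omega)]
  have F5 : (((2 * L : ℕ) : ZMod n) - ((L : ℕ) : ZMod n)).val ≤ L := by
    have : (((2 * L : ℕ) : ZMod n) - ((L : ℕ) : ZMod n)) = ((L : ℕ) : ZMod n) := by
      push_cast; ring
    rw [this, hvn L (by omega)]
  have F0 : ∀ x : ZMod n, (x - x).val ≤ L := by
    intro x
    rw [sub_self, ZMod.val_zero]
    exact Nat.zero_le _
  have F00 : (0 : ZMod n) = ((0 : ℕ) : ZMod n) := by rw [Nat.cast_zero]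
  have hpair : ∀ i ∈ lts u, ∀ j ∈ lts u, ∃ x : ZMod n, (x - (i : ℕ)).val ≤ L ∧
      (x - (j : ℕ)).val ≤ L := by
    intro i hi j hj
    rw [hu] at hi hj
    rcases hi with rfl | rfl | rfl <;> rcases hj with rfl | hj | hj
    · exact ⟨_, F0 _, F0 _⟩
    · rw [hj]; exact ⟨_, F3, F0 _⟩
    · rw [hj]; exact ⟨0, by rw [Nat.cast_zero]; exact F0 _, F2⟩
    · exact ⟨_, F0 _, F3⟩
    · rw [hj]; exact ⟨_, F0 _, F0 _⟩
    · rw [hj]; exact ⟨_, F5, F0 _⟩
    · exact ⟨0, F2, by rw [Nat.cast_zero]; exact F0 _⟩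
    · rw [hj]; exact ⟨_, F0 _, F5⟩
    · rw [hj]; exact ⟨_, F0 _, F0 _⟩
  -- the value is empty
  have hs0 : (ψ u).s = ∅ := by
    by_contra hne
    rw [← Ne, ← Set.nonempty_iff_ne_empty] at hne
    obtain ⟨x, hx⟩ := hne
    rw [TA.ev] at hx
    obtain ⟨i, hi, j, hj, hij⟩ := breadth (by omega) (lts u) (lts_nonempty u)
      (fun y => (ψ (FreeSemigroup.of y)).s) (fun y _ => (ψ (FreeSemigroup.of y)).h) hx
    obtain ⟨z, hz1, hz2⟩ := hpair i hi j hj
    apply hcon (FreeSemigroup.of i * FreeSemigroup.of j) ?_ z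
    · intro y hy
      rw [lts_mul, lts_of, lts_of, Finset.mem_union, Finset.mem_singleton,
        Finset.mem_singleton] at hy
      rcases hy with rfl | rfl
      · exact hz1
      · exact hz2
    · apply TA.ext'
      apply Set.Subset.antisymm
      · intro z hz
        rw [TA.ev] at hz
        rw [map_mul]
        exact ⟨hz i hi, hz j hj⟩
      · intro z hz
        rw [TA.ev]
        intro y hy
        apply hij y hy
        rw [map_mul] at hz
        exact hz
  -- the points
  have hq : ∀ p : ZMod n, ∃ q : ZMod (2 * L' + e' + 1), ∀ y, y < n → (p - (y : ℕ)).val ≤ L →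
      q ∈ (ψ (FreeSemigroup.of y)).s := by
    intro p
    obtain ⟨w, hw⟩ := exists_word ((Finset.range n).filter fun y => (p - ((y : ℕ) : ZMod n)).val ≤ L)
      ⟨p.val, by
        rw [Finset.mem_filter, Finset.mem_range]
        refine ⟨ZMod.val_lt p, ?_⟩
        rw [ZMod.natCast_zmod_val]
        exact F0 p⟩
    by_contra hcon2
    push Not at hcon2
    have hemp : (ψ w).s = ∅ := by
      rw [Set.eq_empty_iff_forall_notMem]
      intro q hq
      rw [TA.ev] at hq
      obtain ⟨y, hy1, hy2, hy3⟩ := hcon2 q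
      apply hy3
      apply hq
      rw [hw, Finset.mem_filter, Finset.mem_range]
      exact ⟨hy1, hy2⟩
    apply hcon w (TA.ext' (by rw [hs0, hemp])) p
    intro y hy
    rw [hw, Finset.mem_filter] at hy
    exact hy.2
  choose q hq using hq
  have hB : ∀ y : ZMod n, ∃ b : ZMod (2 * L' + e' + 1), ∃ l : ℕ, l ≤ L' ∧
      (ψ (FreeSemigroup.of y.val)).s = arc (2 * L' + e' + 1) b l := by
    intro y
    rcases (ψ (FreeSemigroup.of y.val)).h with h | ⟨b, l, hl, h⟩
    · have := hq y y.val (ZMod.val_lt y) (by rw [ZMod.natCast_zmod_val]; exact F0 y)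
      rw [h] at this
      exact absurd this (Set.notMem_empty _)
    · exact ⟨b, l, hl, h⟩
  choose b l hl hB using hB
  obtain ⟨z, hz0, hz1, hz2⟩ := winding (n' := 2 * L' + e' + 1) hL0 h3 (by omega)
    (by omega : 2 * L' < 2 * L' + e' + 1) hlt b l hl q (by
      intro y k hk
      have := hq (y + (k : ℕ)) y.val (ZMod.val_lt y) (by
        rw [ZMod.natCast_zmod_val, add_sub_cancel_left, hvn k (by omega)]
        exact hk)
      rw [hB] at this
      exact this)
  have hz : z ∈ (ψ u).s := by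
    rw [TA.ev]
    intro y hy
    rw [hu] at hy
    rcases hy with rfl | rfl | rfl
    · have := hB 0
      rw [ZMod.val_zero] at this
      rw [this]; exact hz0
    · have := hB ((y : ℕ) : ZMod n)
      rw [hvn y (by omega)] at this
      rw [this]; exact hz1
    · have := hB ((2 * L : ℕ) : ZMod n)
      rw [hvn (2 * L) (by omega)] at this
      rw [this]; exact hz2
  rw [hs0] at hz
  exact hz

theorem ta_not_mem {ι : Type v} (c : ι → ℕ × ℕ) (L e : ℕ) (hL0 : 0 < L) (he : e + 1 ≤ L)
    (hlt : ∀ i, (2 * L + e + 1) * (c i).1 < (2 * (c i).1 + (c i).2 + 1) * L) :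
    ¬ genF (fun i => TA.{u} (c i).1 (c i).2) (TA.{u} L e) := by
  intro hgen
  let n := 2 * L + e + 1
  have hn : n = 2 * L + e + 1 := rfl
  let φ : Word →ₙ* TA.{u} L e :=
    FreeSemigroup.lift (fun y => ⟨arc n (y : ℕ) L, Or.inr ⟨_, _, le_rfl, rfl⟩⟩)
  have hφ : ∀ (w : Word) (x : ZMod n), x ∈ (φ w).s ↔ ∀ y ∈ lts w, (x - (y : ℕ)).val ≤ L := by
    intro w x
    rw [TA.ev]
    constructor
    · intro h y hy
      have := h y hy
      simp only [φ, FreeSemigroup.lift_of] at this
      exact this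
    · intro h y hy
      simp only [φ, FreeSemigroup.lift_of]
      exact h y hy
  let u : Word := FreeSemigroup.of 0 * FreeSemigroup.of L * FreeSemigroup.of (2 * L)
  have hu : ∀ y, y ∈ lts u ↔ y = 0 ∨ y = L ∨ y = 2 * L := by
    intro y
    simp only [u, lts_mul, lts_of, Finset.mem_union, Finset.mem_singleton, or_assoc]
  have hvn : ∀ m : ℕ, m < n → ((m : ℕ) : ZMod n).val = m := fun m hm => ZMod.val_cast_of_lt hm
  have hu0 : (φ u).s = ∅ := by
    rw [Set.eq_empty_iff_forall_notMem]
    intro x hx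
    rw [hφ] at hx
    have h0 := hx 0 ((hu 0).mpr (Or.inl rfl))
    have h1 := hx L ((hu L).mpr (Or.inr (Or.inl rfl)))
    have h2 := hx (2 * L) ((hu _).mpr (Or.inr (Or.inr rfl)))
    rw [Nat.cast_zero, sub_zero] at h0
    have e1 : (((L : ℕ) : ZMod n) - 0).val = L := by rw [sub_zero, hvn L (by omega)]
    have e2 : (((2 * L : ℕ) : ZMod n) - 0).val = 2 * L := by rw [sub_zero, hvn _ (by omega)]
    have hx0 : (x - 0).val = x.val := by rw [sub_zero]
    have h3 : L ≤ x.val := by
      by_contra hcon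
      have := val_sub_lt x 0 ((L : ℕ) : ZMod n) (by rw [e1, hx0]; omega)
      rw [e1, hx0] at this
      omega
    have := val_sub_lt x 0 ((2 * L : ℕ) : ZMod n) (by rw [e2, hx0]; omega)
    rw [e2, hx0] at this
    omega
  have hsat : ∀ i, SatIncl (TA.{u} (c i).1 (c i).2) u {w | φ u ≠ φ w} := by
    intro i ψ
    by_contra hcon
    push Not at hcon
    refine wind_false (n := n) hL0 (by omega) (by omega) (hlt i) ψ ?_
    intro w hw x hx
    have h1 : φ u = φ w := by
      by_contra h
      exact hcon w h hw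
    have h2 := (hφ w x).mpr hx
    rw [← h1, hu0] at h2
    exact h2
  obtain ⟨v, hv, hvu⟩ := hgen u _ hsat φ
  exact hv hvu

end Pool.Agent.helper2.Inc
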