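import Mathlib
import Pool.Agent.helper2.Inc.Ring
import Pool.Agent.helper2.Inc.FinB

/-!
# Membership: the free semilattice of rank three with a zero
-/

universe u v

open Pool.Agent.helper9.Incl Pool.Agent.helper45.Inc

namespace Pool.Agent.helper2.Inc

/-! ### Geometry of arcs -/

section
variable {n : ℕ} [NeZero n]

/-- an arc seen from one of its points -/
theorem around' {L : ℕ} (hL : 2 * L < n) {t : Set (ZMod n)} (ht : IsA n L t) {x : ZMod n}
    (hx : x ∈ t) : ∃ l r : ℕ, l + r ≤ L ∧ ∀ y, y ∈ t ↔ (y - x).val ≤ r ∨ n ≤ (y - x).val + l := by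
  obtain ⟨l, r, hlr, h⟩ := around hL ht hx
  refine ⟨l, r, hlr, ?_⟩
  intro y
  rw [h]
  by_cases hxy : x = y
  · subst hxy
    rw [sub_self, ZMod.val_zero]
    omega
  · have h1 := val_swap x y hxy
    have h2 := ZMod.val_lt (y - x)
    omega

/-- an arc seen from a point outside -/
theorem away {L : ℕ} (_hL : 2 * L < n) {t : Set (ZMod n)} (ht : IsA n L t) (hne : t.Nonempty)
    {x : ZMod n} (hx : x ∉ t) : ∃ α β : ℕ, α ≤ β ∧ β ≤ α + L ∧ β < n ∧
      ∀ y, y ∈ t ↔ α ≤ (y - x).val ∧ (y - x).val ≤ β := by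
  rcases ht with rfl | ⟨a, m, hm, rfl⟩
  · simp at hne
  rw [mem_arc] at hx
  have hax : x ≠ a := by
    rintro rfl
    rw [sub_self, ZMod.val_zero] at hx
    omega
  have h0 := val_swap x a hax
  have h00 := ZMod.val_lt (x - a)
  have h01 := ZMod.val_lt (a - x)
  refine ⟨(a - x).val, (a - x).val + m, by omega, by omega, by omega, ?_⟩
  intro y
  rw [mem_arc]
  have hy := ZMod.val_lt (y - x)
  rcases le_or_gt (a - x).val (y - x).val with h1 | h1
  · have h2 := val_sub_ge y x a h1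
    omega
  · have h2 := val_sub_lt y x a h1
    omega

theorem median {L : ℕ} (hL : 2 * L < n) {a b c d : Set (ZMod n)} (ha : IsA n L a)
    (hb : IsA n L b) (hc : IsA n L c) (hd : IsA n L d) (habc : a ∩ b ∩ c = ∅)
    (h1 : (d ∩ (b ∩ c)).Nonempty) (h2 : (d ∩ (c ∩ a)).Nonempty) (h3 : (d ∩ (a ∩ b)).Nonempty) :
    False := by
  obtain ⟨p, hpd, hpb, hpc⟩ := h1
  obtain ⟨q, hqd, hqc, hqa⟩ := h2
  obtain ⟨r, hrd, hra, hrb⟩ := h3
  rcases hd with rfl | ⟨o, m, hm, rfl⟩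
  · exact hpd
  obtain ⟨α1, β1, _, _, e1⟩ := seg hL hm ha ⟨q, hqd, hqa⟩
  obtain ⟨α2, β2, _, _, e2⟩ := seg hL hm hb ⟨p, hpd, hpb⟩
  obtain ⟨α3, β3, _, _, e3⟩ := seg hL hm hc ⟨p, hpd, hpc⟩
  have pa := (e2 p).mp ⟨hpd, hpb⟩
  have pc := (e3 p).mp ⟨hpd, hpc⟩
  have qc := (e3 q).mp ⟨hqd, hqc⟩
  have qa := (e1 q).mp ⟨hqd, hqa⟩
  have ra := (e1 r).mp ⟨hrd, hra⟩
  have rb := (e2 r).mp ⟨hrd, hrb⟩
  have hno : ∀ x, x ∈ a → x ∈ b → x ∈ c → False := by
    intro x h1 h2 h3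
    have : x ∈ a ∩ b ∩ c := ⟨⟨h1, h2⟩, h3⟩
    rw [habc] at this
    exact this
  have hp : ¬ (α1 ≤ (p - o).val ∧ (p - o).val ≤ β1) := fun h => hno p ((e1 p).mpr h).2 hpb hpc
  have hq : ¬ (α2 ≤ (q - o).val ∧ (q - o).val ≤ β2) := fun h => hno q hqa ((e2 q).mpr h).2 hqc
  have hr : ¬ (α3 ≤ (r - o).val ∧ (r - o).val ≤ β3) := fun h => hno r hra hrb ((e3 r).mpr h).2
  omega

theorem no_point {L : ℕ} (hL : 2 * L < n) (h5 : 5 * L < 2 * n) {a b c β γ : Set (ZMod n)}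
    (ha : IsA n L a) (hb : IsA n L b) (hc : IsA n L c) (hβ : IsA n L β) (hγ : IsA n L γ)
    (habc : a ∩ b ∩ c = ∅) (hab : (a ∩ b).Nonempty) (hbc : (b ∩ c).Nonempty)
    (hca : (c ∩ a).Nonempty) (hβc : (β ∩ c).Nonempty) (hγb : (γ ∩ b).Nonempty)
    (hβca : β ∩ (c ∩ a) = ∅) (hγab : γ ∩ (a ∩ b) = ∅) {p : ZMod n} (hpβ : p ∈ β) (hpγ : p ∈ γ)
    (hpb : p ∉ b) (hpc : p ∉ c) : False := by
  obtain ⟨b0, b1, hb01, hbL, hbn, eb⟩ := away hL hb (hab.mono Set.inter_subset_right) hpb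
  obtain ⟨c0, c1, hc01, hcL, hcn, ec⟩ := away hL hc (hbc.mono Set.inter_subset_right) hpc
  obtain ⟨lβ, rβ, hlrβ, eβ⟩ := around' hL hβ hpβ
  obtain ⟨lγ, rγ, hlrγ, eγ⟩ := around' hL hγ hpγ
  have hval : ∀ m : ℕ, m < n → ∃ y : ZMod n, (y - p).val = m := by
    intro m hm
    refine ⟨(m : ℕ) + p, ?_⟩
    rw [add_sub_cancel_right, ZMod.val_cast_of_lt hm]
  have hno : ∀ x, ¬ (x ∈ a ∧ x ∈ b ∧ x ∈ c) := by
    rintro x ⟨h1, h2, h3⟩
    have : x ∈ a ∩ b ∩ c := ⟨⟨h1, h2⟩, h3⟩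
    rw [habc] at this
    exact this
  have hnoβ : ∀ x, ¬ (x ∈ β ∧ x ∈ c ∧ x ∈ a) := by
    rintro x ⟨h1, h2, h3⟩
    have : x ∈ β ∩ (c ∩ a) := ⟨h1, h2, h3⟩
    rw [hβca] at this
    exact this
  have hnoγ : ∀ x, ¬ (x ∈ γ ∧ x ∈ a ∧ x ∈ b) := by
    rintro x ⟨h1, h2, h3⟩
    have : x ∈ γ ∩ (a ∩ b) := ⟨h1, h2, h3⟩
    rw [hγab] at this
    exact this
  obtain ⟨yb0, hyb0⟩ := hval b0 (by omega)
  obtain ⟨yb1, hyb1⟩ := hval b1 hbn
  obtain ⟨yc0, hyc0⟩ := hval c0 (by omega)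
  obtain ⟨yc1, hyc1⟩ := hval c1 hcn
  obtain ⟨x1, hx1a, hx1b⟩ := hab
  obtain ⟨x2, hx2b, hx2c⟩ := hbc
  obtain ⟨x3, hx3c, hx3a⟩ := hca
  obtain ⟨x4, hx4β, hx4c⟩ := hβc
  obtain ⟨x5, hx5γ, hx5b⟩ := hγb
  have v1 := ZMod.val_lt (x1 - p)
  have v2 := ZMod.val_lt (x2 - p)
  have v3 := ZMod.val_lt (x3 - p)
  have v4 := ZMod.val_lt (x4 - p)
  have v5 := ZMod.val_lt (x5 - p)
  rw [eb] at hx1b hx2b hx5b
  rw [ec] at hx2c hx3c hx4c
  rw [eβ] at hx4β
  rw [eγ] at hx5γ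
  by_cases hpa : p ∈ a
  · obtain ⟨la, ra, hlra, ea⟩ := around' hL ha hpa
    have k1 := hno yb0
    have k2 := hno yb1
    have k3 := hno yc0
    have k4 := hno yc1
    have k5 := hnoβ yc0
    have k6 := hnoβ yc1
    have k7 := hnoγ yb0
    have k8 := hnoγ yb1
    rw [ea] at hx1a hx3a
    rw [ea, eb, ec, hyb0] at k1
    rw [ea, eb, ec, hyb1] at k2
    rw [ea, eb, ec, hyc0] at k3
    rw [ea, eb, ec, hyc1] at k4
    rw [eβ, ec, ea, hyc0] at k5
    rw [eβ, ec, ea, hyc1] at k6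
    rw [eγ, ea, eb, hyb0] at k7
    rw [eγ, ea, eb, hyb1] at k8
    clear hno hnoβ hnoγ hval
    omega
  · obtain ⟨a0, a1, ha01, haL, han, ea⟩ := away hL ha ⟨x1, hx1a⟩ hpa
    obtain ⟨ya0, hya0⟩ := hval a0 (by omega)
    have k1 := hno yb0
    have k3 := hno yc0
    have k5 := hno ya0
    rw [ea] at hx1a hx3a
    rw [ea, eb, ec, hyb0] at k1
    rw [ea, eb, ec, hyc0] at k3
    rw [ea, eb, ec, hya0] at k5
    omega

end

/-! ### Words evaluated in the free semilattice with a zero -/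

/-- `f` and `z` embed the semilattice of all nonempty subsets of a three-element set under union,
with a zero adjoined. -/
def IsFz {S : Type u} [Semigroup S] (f : Finset (Fin 3) → S) (z : S) : Prop :=
  (∀ s t : Finset (Fin 3), s.Nonempty → t.Nonempty → f s * f t = f (s ∪ t)) ∧
    (∀ s t : Finset (Fin 3), s.Nonempty → t.Nonempty → f s = f t → s = t) ∧
    (∀ s : Finset (Fin 3), s.Nonempty → f s ≠ z ∧ z * f s = z ∧ f s * z = z) ∧ z * z = z

theorem ev_fz {S : Type u} [Semigroup S] {f : Finset (Fin 3) → S} {z : S} (hf : IsFz f z)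
    (A : ℕ → Prop) [∀ y, Decidable (A y)] (P : ℕ → Finset (Fin 3)) (hP : ∀ y, (P y).Nonempty)
    (w : Word) : FreeSemigroup.lift (fun y => if A y then f (P y) else z) w =
      if ∀ y ∈ lts w, A y then f ((lts w).biUnion P) else z := by
  have hne : ∀ w : Word, ((lts w).biUnion P).Nonempty := by
    intro w
    obtain ⟨y, hy⟩ := lts_nonempty w
    obtain ⟨c, hc⟩ := hP y
    exact ⟨c, Finset.mem_biUnion.mpr ⟨y, hy, hc⟩⟩
  induction w using FreeSemigroup.recOnMul with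
  | ih1 x =>
    rw [FreeSemigroup.lift_of, lts_of, Finset.singleton_biUnion]
    simp
  | ih2 a b ha hb =>
    rw [map_mul, ha, hb, lts_mul]
    by_cases h1 : ∀ y ∈ lts (FreeSemigroup.of a), A y
    · by_cases h2 : ∀ y ∈ lts b, A y
      · rw [if_pos h1, if_pos h2, if_pos, hf.1 _ _ (hne _) (hne _), Finset.union_biUnion]
        intro y hy
        rcases Finset.mem_union.mp hy with hy | hy
        · exact h1 y hy
        · exact h2 y hy
      · rw [if_pos h1, if_neg h2, (hf.2.2.1 _ (hne _)).2.2, if_neg]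
        exact fun h => h2 fun y hy => h y (Finset.mem_union_right _ hy)
    · have h3 : ¬ ∀ y ∈ lts (FreeSemigroup.of a) ∪ lts b, A y :=
        fun h => h1 fun y hy => h y (Finset.mem_union_left _ hy)
      rw [if_neg h3, if_neg h1]
      by_cases h2 : ∀ y ∈ lts b, A y
      · rw [if_pos h2, (hf.2.2.1 _ (hne _)).2.1]
      · rw [if_neg h2, hf.2.2.2]

/-- two evaluations into the free semilattice with a zero -/
theorem fz_ctl {S T : Type u} [Semigroup S] [Semigroup T] {f : Finset (Fin 3) → S} {z : S}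
    (hf : IsFz f z) (φ : Word →ₙ* T) (u : Word) (P : ℕ → Finset (Fin 3))
    (hP : ∀ y, (P y).Nonempty) (h1 : ∀ c, ∃ y ∈ lts u, c ∈ P y)
    (h2 : ∀ w, lts w ⊆ lts u → (∀ c, ∃ y ∈ lts w, c ∈ P y) → φ u = φ w) :
    ∃ ψ : Word →ₙ* S, ∀ w, ψ u = ψ w → φ u = φ w := by
  classical
  refine ⟨FreeSemigroup.lift (fun y => if y ∈ lts u then f (P y) else z), ?_⟩
  intro w hw
  have hne : ∀ w : Word, ((lts w).biUnion P).Nonempty := by
    intro w
    obtain ⟨y, hy⟩ := lts_nonempty w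
    obtain ⟨c, hc⟩ := hP y
    exact ⟨c, Finset.mem_biUnion.mpr ⟨y, hy, hc⟩⟩
  rw [ev_fz hf _ P hP, ev_fz hf _ P hP, if_pos (fun y hy => hy)] at hw
  by_cases hA : ∀ y ∈ lts w, y ∈ lts u
  · rw [if_pos hA] at hw
    have h3 := hf.2.1 _ _ (hne _) (hne _) hw
    apply h2 w hA
    intro c
    obtain ⟨y, hy, hc⟩ := h1 c
    have h4 : c ∈ (lts u).biUnion P := Finset.mem_biUnion.mpr ⟨y, hy, hc⟩
    rw [h3, Finset.mem_biUnion] at h4
    exact h4
  · rw [if_neg hA] at hw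
    exact absurd hw (hf.2.2.1 _ (hne _)).1

theorem fz_two {S T : Type u} [Semigroup S] [Semigroup T] (hT : SL T)
    {f : Finset (Fin 3) → S} {z : S}
    (hf : IsFz f z) (φ : Word →ₙ* T) (u : Word) {i j : ℕ} (hi : i ∈ lts u) (hj : j ∈ lts u)
    (hij : φ (FreeSemigroup.of i) * φ (FreeSemigroup.of j) = φ u) :
    ∃ ψ : Word →ₙ* S, ∀ w, ψ u = ψ w → φ u = φ w := by
  classical
  let P : ℕ → Finset (Fin 3) := fun y => Finset.univ.filter fun c => c = 0 ∨ (c = 1 ∧ y = i) ∨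
    (c = 2 ∧ φ (FreeSemigroup.of i) * φ (FreeSemigroup.of y) = φ u)
  have hPm : ∀ y c, c ∈ P y ↔ c = 0 ∨ (c = 1 ∧ y = i) ∨
      (c = 2 ∧ φ (FreeSemigroup.of i) * φ (FreeSemigroup.of y) = φ u) := by
    intro y c
    simp only [P, Finset.mem_filter, Finset.mem_univ, true_and]
  apply fz_ctl hf φ u P (fun y => ⟨0, (hPm y 0).mpr (Or.inl rfl)⟩)
  · intro c
    fin_cases c
    · exact ⟨i, hi, (hPm _ _).mpr (Or.inl rfl)⟩
    · exact ⟨i, hi, (hPm _ _).mpr (Or.inr (Or.inl ⟨rfl, rfl⟩))⟩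
    · exact ⟨j, hj, (hPm _ _).mpr (Or.inr (Or.inr ⟨rfl, hij⟩))⟩
  · intro w hw hc
    have h1 : i ∈ lts w := by
      obtain ⟨y, hy, hyc⟩ := hc 1
      rcases (hPm _ _).mp hyc with h | ⟨_, rfl⟩ | ⟨h, _⟩
      · exact absurd h (by decide)
      · exact hy
      · exact absurd h (by decide)
    obtain ⟨y, hy, hyc⟩ := hc 2
    have h2 : φ (FreeSemigroup.of i) * φ (FreeSemigroup.of y) = φ u := by
      rcases (hPm _ _).mp hyc with h | ⟨h, _⟩ | ⟨_, h⟩
      · exact absurd h (by decide)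
      · exact absurd h (by decide)
      · exact h
    exact (close hT φ w (φ u) (fun y hy => live hT φ u y (hw hy)) h1 hy h2).symm

theorem fz_three {S T : Type u} [Semigroup S] [Semigroup T]
    {f : Finset (Fin 3) → S} {z : S}
    (hf : IsFz f z) (φ : Word →ₙ* T) (u : Word) (κ : ℕ → Fin 3)
    (h1 : ∀ c, ∃ y ∈ lts u, κ y = c)
    (h2 : ∀ w, lts w ⊆ lts u → (∀ c, ∃ y ∈ lts w, κ y = c) → φ u = φ w) :
    ∃ ψ : Word →ₙ* S, ∀ w, ψ u = ψ w → φ u = φ w := by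
  apply fz_ctl hf φ u (fun y => {κ y}) (fun y => Finset.singleton_nonempty _)
  · intro c
    obtain ⟨y, hy, hc⟩ := h1 c
    exact ⟨y, hy, by rw [Finset.mem_singleton, hc]⟩
  · intro w hw hc
    apply h2 w hw
    intro c
    obtain ⟨y, hy, hyc⟩ := hc c
    rw [Finset.mem_singleton] at hyc
    exact ⟨y, hy, hyc.symm⟩

theorem mem_of_fz {V : SgClass.{u}} (hV : IsInclVariety V) {S : Type u} [Semigroup S] (hS : V S)
    {f : Finset (Fin 3) → S} {z : S} (hf : IsFz f z) (L e : ℕ) (h5 : L < 2 * (e + 1)) :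
    V (TA.{u} L e) := by
  classical
  apply mem_of_div hV
  intro u φ
  refine ⟨S, inferInstance, hS, ?_⟩
  have hT : SL (TA.{u} L e) := ⟨TA.comm, TA.idem⟩
  have hL : 2 * L < 2 * L + e + 1 := by omega
  have hA : ∀ y ∈ lts u, IsA (2 * L + e + 1) L (φ (FreeSemigroup.of y)).s := fun y _ =>
    (φ (FreeSemigroup.of y)).h
  by_cases h2 : ∃ i ∈ lts u, ∃ j ∈ lts u, φ (FreeSemigroup.of i) * φ (FreeSemigroup.of j) = φ u
  · obtain ⟨i, hi, j, hj, hij⟩ := h2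
    exact fz_two hT hf φ u hi hj hij
  push Not at h2
  have h0 : (φ u).s = ∅ := by
    by_contra hne
    rw [← Ne, ← Set.nonempty_iff_ne_empty] at hne
    obtain ⟨x, hx⟩ := hne
    rw [TA.ev] at hx
    obtain ⟨i, hi, j, hj, hij⟩ := breadth hL (lts u) (lts_nonempty u)
      (fun y => (φ (FreeSemigroup.of y)).s) hA hx
    apply h2 i hi j hj
    apply TA.ext'
    apply Set.Subset.antisymm
    · intro z hz
      rw [TA.ev]
      intro y hy
      exact hij y hy hz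
    · intro z hz
      rw [TA.ev] at hz
      exact ⟨hz i hi, hz j hj⟩
  let A : ℕ → Set (ZMod (2 * L + e + 1)) := fun y => (φ (FreeSemigroup.of y)).s
  have hAA : ∀ y, IsA (2 * L + e + 1) L (A y) := fun y => (φ (FreeSemigroup.of y)).h
  have hmeet : ∀ i ∈ lts u, ∀ j ∈ lts u, (A i ∩ A j).Nonempty := by
    intro i hi j hj
    rw [Set.nonempty_iff_ne_empty]
    intro h
    apply h2 i hi j hj
    apply TA.ext'
    rw [h0]
    exact h
  obtain ⟨i, hi, j, hj, k, hk, hijk⟩ := helly hL (lts u) (lts_nonempty u) A hA (by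
      intro x
      by_contra hcon
      push Not at hcon
      have := (TA.ev φ u x).mpr hcon
      rw [h0] at this
      exact this)
  have hcol : ∀ y ∈ lts u, A y ∩ (A j ∩ A k) = ∅ ∨ A y ∩ (A k ∩ A i) = ∅ ∨
      A y ∩ (A i ∩ A j) = ∅ := by
    intro y hy
    by_contra hcon
    push Not at hcon
    exact median hL (hAA i) (hAA j) (hAA k) (hAA y) hijk hcon.1 hcon.2.1 hcon.2.2
  let κ : ℕ → Fin 3 := fun y => if A y ∩ (A j ∩ A k) = ∅ then 0 else
    if A y ∩ (A k ∩ A i) = ∅ then 1 else 2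
  have hκ0 : ∀ y, κ y = 0 → A y ∩ (A j ∩ A k) = ∅ := by
    intro y hy
    by_contra h1
    simp only [κ] at hy
    rw [if_neg h1] at hy
    split_ifs at hy
    · exact absurd hy (by decide)
    · exact absurd hy (by decide)
  have hκ1 : ∀ y, κ y = 1 → A y ∩ (A k ∩ A i) = ∅ := by
    intro y hy
    by_contra h2
    simp only [κ] at hy
    rw [if_neg h2] at hy
    split_ifs at hy
    · exact absurd hy (by decide)
    · exact absurd hy (by decide)
  have hκ2 : ∀ y ∈ lts u, κ y = 2 → A y ∩ (A i ∩ A j) = ∅ := by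
    intro y hyu hy
    simp only [κ] at hy
    rcases hcol y hyu with h | h | h
    · rw [if_pos h] at hy
      exact absurd hy (by decide)
    · rw [if_pos h] at hy
      split_ifs at hy
      · exact absurd hy (by decide)
      · exact absurd hy (by decide)
    · exact h
  apply fz_three hf φ u κ
  · intro c
    have e1 : A i ∩ (A j ∩ A k) = ∅ := by rw [← Set.inter_assoc]; exact hijk
    have e2 : A j ∩ (A k ∩ A i) = ∅ := by
      rw [← hijk]; ext x; simp only [Set.mem_inter_iff]; tauto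
    have n2 : A j ∩ (A j ∩ A k) ≠ ∅ := by
      rw [← Set.inter_assoc, Set.inter_self, ← Set.nonempty_iff_ne_empty]
      exact hmeet j hj k hk
    have n3 : A k ∩ (A j ∩ A k) ≠ ∅ := by
      rw [Set.inter_comm (A j), ← Set.inter_assoc, Set.inter_self, ← Set.nonempty_iff_ne_empty]
      exact hmeet k hk j hj
    have n4 : A k ∩ (A k ∩ A i) ≠ ∅ := by
      rw [← Set.inter_assoc, Set.inter_self, ← Set.nonempty_iff_ne_empty]
      exact hmeet k hk i hi
    fin_cases c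
    · exact ⟨i, hi, by simp only [κ]; rw [if_pos e1]; rfl⟩
    · exact ⟨j, hj, by simp only [κ]; rw [if_neg n2, if_pos e2]; rfl⟩
    · exact ⟨k, hk, by simp only [κ]; rw [if_neg n3, if_neg n4]; rfl⟩
  · intro w hw hc
    apply TA.ext'
    rw [h0]
    symm
    rw [Set.eq_empty_iff_forall_notMem]
    intro p hp
    rw [TA.ev] at hp
    obtain ⟨α, hα, hα'⟩ := hc 0
    obtain ⟨β, hβ, hβ'⟩ := hc 1
    obtain ⟨γ, hγ, hγ'⟩ := hc 2
    have mα := hκ0 α hα'
    have mβ := hκ1 β hβ'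
    have mγ := hκ2 γ (hw hγ) hγ'
    have pα : p ∈ A α := hp α hα
    have pβ : p ∈ A β := hp β hβ
    have pγ : p ∈ A γ := hp γ hγ
    have r1 : A j ∩ A k ∩ A i = ∅ := by
      rw [← hijk]; ext x; simp only [Set.mem_inter_iff]; tauto
    have r2 : A k ∩ A i ∩ A j = ∅ := by
      rw [← hijk]; ext x; simp only [Set.mem_inter_iff]; tauto
    have h5' : 5 * L < 2 * (2 * L + e + 1) := by omega
    have q1 : ¬ (p ∈ A j ∧ p ∈ A k) := by
      rintro ⟨h1, h2⟩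
      have : p ∈ A α ∩ (A j ∩ A k) := ⟨pα, h1, h2⟩
      rw [mα] at this
      exact this
    have q2 : ¬ (p ∈ A k ∧ p ∈ A i) := by
      rintro ⟨h1, h2⟩
      have : p ∈ A β ∩ (A k ∩ A i) := ⟨pβ, h1, h2⟩
      rw [mβ] at this
      exact this
    have q3 : ¬ (p ∈ A i ∧ p ∈ A j) := by
      rintro ⟨h1, h2⟩
      have : p ∈ A γ ∩ (A i ∩ A j) := ⟨pγ, h1, h2⟩
      rw [mγ] at this
      exact this
    by_cases pi : p ∈ A i
    · exact no_point hL h5' (hAA i) (hAA j) (hAA k) (hAA β) (hAA γ) hijk (hmeet i hi j hj)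
        (hmeet j hj k hk) (hmeet k hk i hi) (hmeet β (hw hβ) k hk) (hmeet γ (hw hγ) j hj) mβ mγ
        pβ pγ (fun h => q3 ⟨pi, h⟩) (fun h => q2 ⟨h, pi⟩)
    by_cases pj : p ∈ A j
    · exact no_point hL h5' (hAA j) (hAA k) (hAA i) (hAA γ) (hAA α) r1 (hmeet j hj k hk)
        (hmeet k hk i hi) (hmeet i hi j hj) (hmeet γ (hw hγ) i hi) (hmeet α (hw hα) k hk) mγ mα
        pγ pα (fun h => q1 ⟨pj, h⟩) pi
    · exact no_point hL h5' (hAA k) (hAA i) (hAA j) (hAA α) (hAA β) r2 (hmeet k hk i hi)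
        (hmeet i hi j hj) (hmeet j hj k hk) (hmeet α (hw hα) j hj) (hmeet β (hw hβ) i hi) mα mβ
        pα pβ pi pj

end Pool.Agent.helper2.Inc
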