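import Mathlib
import Pool.Agent.helper2.Inc.Tri

/-!
# Continuum many inclusive varieties of short arcs, and semilattices closed under adjunctions
-/

universe u v

open Pool.Agent.helper9.Incl Pool.Agent.helper45.Inc

namespace Pool.Agent.helper2.Inc

/-- the arcs with `n / L > x`, where `n = 2 * L + e + 1 ≤ 3 * L` -/
def Ix (x : ℝ) : Type :=
  {c : ℕ × ℕ // 0 < c.1 ∧ c.2 + 1 ≤ c.1 ∧ x * c.1 < ((2 * c.1 + c.2 + 1 : ℕ) : ℝ)}

/-- the inclusive variety generated by them -/
def FI (x : ℝ) : SgClass.{u} := genF (fun i : Ix x => TA.{u} i.1.1 i.1.2)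

theorem fi_ne {x y : ℝ} (hx : 2 < x) (hxy : x < y) (hy : y < 3) :
    FI.{u} x ≠ FI.{u} y := by
  intro hFF
  obtain ⟨r, hr1, hr2⟩ := exists_rat_btwn hxy
  have hr0 : (2 : ℝ) < r := hx.trans hr1
  have hr3 : (r : ℝ) < 3 := hr2.trans hy
  have hr0' : (2 : ℚ) < r := by exact_mod_cast hr0
  have hden : 0 < r.den := r.den_pos
  have hnum : 0 < r.num := Rat.num_pos.mpr (by linarith)
  have hreq : (r : ℝ) = (r.num.toNat : ℝ) / r.den := by
    have h1 : (r.num.toNat : ℤ) = r.num := Int.toNat_of_nonneg hnum.le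
    have h2 : ((r.num.toNat : ℕ) : ℝ) = (r.num : ℝ) := by exact_mod_cast h1
    rw [h2]
    exact_mod_cast (Rat.num_div_den r).symm
  have hdR : (0 : ℝ) < r.den := by exact_mod_cast hden
  have e1 : (r.num.toNat : ℝ) = r * r.den := by
    rw [hreq]; field_simp
  have hlo : 2 * r.den < r.num.toNat := by
    have : (2 : ℝ) * r.den < r.num.toNat := by rw [e1]; nlinarith
    exact_mod_cast this
  have hhi : r.num.toNat < 3 * r.den := by
    have : (r.num.toNat : ℝ) < 3 * r.den := by rw [e1]; nlinarith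
    exact_mod_cast this
  obtain ⟨e, he⟩ : ∃ e, r.num.toNat = 2 * r.den + e + 1 := ⟨r.num.toNat - 2 * r.den - 1, by omega⟩
  have hmem : FI.{u} x (TA.{u} r.den e) := by
    refine genF_mem (fun i : Ix x => TA.{u} i.1.1 i.1.2) ⟨(r.den, e), hden, ?_, ?_⟩
    · change e + 1 ≤ r.den
      omega
    · change x * r.den < ((2 * r.den + e + 1 : ℕ) : ℝ)
      rw [← he, e1]
      nlinarith
  rw [hFF] at hmem
  refine ta_not_mem (fun i : Ix y => i.1) r.den e hden (by omega) ?_ hmem
  rintro ⟨⟨L', e'⟩, h1, h2, h3⟩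
  change (2 * r.den + e + 1) * L' < (2 * L' + e' + 1) * r.den
  have h3' : y * L' < ((2 * L' + e' + 1 : ℕ) : ℝ) := h3
  rw [← he]
  have hL' : (0 : ℝ) < L' := by exact_mod_cast h1
  have h4 : (r.num.toNat : ℝ) * L' < ((2 * L' + e' + 1 : ℕ) : ℝ) * r.den := by
    rw [e1]
    calc (r : ℝ) * r.den * L' = r * L' * r.den := by ring
      _ < ((2 * L' + e' + 1 : ℕ) : ℝ) * r.den := by
          apply mul_lt_mul_of_pos_right _ hdR
          calc (r : ℝ) * L' < y * L' := mul_lt_mul_of_pos_right hr2 hL'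
            _ < _ := h3'
  exact_mod_cast h4

theorem continuum_of_ta {V : SgClass.{u}} (hV : IsInclVariety V)
    (h : ∀ L e : ℕ, L < 2 * (e + 1) → V (TA.{u} L e)) :
    ∃ F : Set ℕ → SgClass.{u}, Function.Injective F ∧ ∀ A, F A ∈ InclSub V := by
  have h1 : Cardinal.mk (Set ℕ) = Cardinal.mk (Set.Ioo (5 / 2 : ℝ) 3) := by
    rw [Cardinal.mk_Ioo_real (by norm_num), Cardinal.mk_set, Cardinal.mk_nat,
      Cardinal.two_power_aleph0]
  obtain ⟨g⟩ := Cardinal.eq.mp h1
  refine ⟨fun A => FI (g A).1, ?_, ?_⟩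
  · intro A B hAB
    apply g.injective
    apply Subtype.ext
    have hA := (g A).2
    have hB := (g B).2
    rcases lt_trichotomy (g A).1 (g B).1 with h2 | h2 | h2
    · exact absurd hAB (fi_ne (by linarith [hA.1]) h2 hB.2)
    · exact h2
    · exact absurd hAB.symm (fi_ne (by linarith [hB.1]) h2 hA.2)
  · intro A
    apply genF_mem_sub hV
    rintro ⟨⟨L, e⟩, h2, h3, h4⟩
    apply h
    change L < 2 * (e + 1)
    have hA := (g A).2.1
    have h4' : (g A).1 * (L : ℝ) < ((2 * L + e + 1 : ℕ) : ℝ) := h4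
    have hL : (0 : ℝ) < L := by exact_mod_cast h2
    have h5 : (5 / 2 : ℝ) * L < ((2 * L + e + 1 : ℕ) : ℝ) :=
      (mul_lt_mul_of_pos_right hA hL).trans h4'
    have h6 : (5 : ℝ) * L < 2 * ((2 * L + e + 1 : ℕ) : ℝ) := by linarith
    have h7 : 5 * L < 2 * (2 * L + e + 1) := by exact_mod_cast h6
    omega

theorem continuum_of_cube {V : SgClass.{u}} (hV : IsInclVariety V) {S : Type u} [Semigroup S]
    (hS : V S) {f : Finset (Fin 3) → S} (hf : IsCube f) :
    ∃ F : Set ℕ → SgClass.{u}, Function.Injective F ∧ ∀ A, F A ∈ InclSub V :=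
  continuum_of_ta hV fun L e _ => mem_of_cube hV hS hf L e

theorem continuum_of_fz {V : SgClass.{u}} (hV : IsInclVariety V) {S : Type u} [Semigroup S]
    (hS : V S) {f : Finset (Fin 3) → S} {z : S} (hf : IsFz f z) :
    ∃ F : Set ℕ → SgClass.{u}, Function.Injective F ∧ ∀ A, F A ∈ InclSub V :=
  continuum_of_ta hV fun L e h => mem_of_fz hV hS hf L e h

/-! ### Three commuting idempotents -/

section
variable {S : Type u} [Semigroup S]

/-- three commuting idempotents, none of which is redundant in their product -/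
def Ir (x y z : S) : Prop :=
  (x * x = x ∧ y * y = y ∧ z * z = z ∧ x * y = y * x ∧ x * z = z * x ∧ y * z = z * y) ∧
    x * y * z ≠ x * y ∧ x * y * z ≠ x * z ∧ x * y * z ≠ y * z

/-- three letters -/
def g3 (x y z : S) : Fin 3 → S := ![x, y, z]

/-- three letters, extended to all natural numbers -/
def gn (x y z : S) (k : ℕ) : S := if k = 0 then x else if k = 1 then y else z

omit [Semigroup S] in
theorem gn_cases (x y z : S) (k : ℕ) : gn x y z k = x ∨ gn x y z k = y ∨ gn x y z k = z := by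
  unfold gn
  split_ifs
  · exact Or.inl rfl
  · exact Or.inr (Or.inl rfl)
  · exact Or.inr (Or.inr rfl)

theorem lift_comm1 {g : ℕ → S} (hg : ∀ a b, g a * g b = g b * g a) (y : ℕ) (w : Word) :
    g y * FreeSemigroup.lift g w = FreeSemigroup.lift g w * g y := by
  induction w using FreeSemigroup.recOnMul with
  | ih1 x => rw [FreeSemigroup.lift_of]; exact hg _ _
  | ih2 a b ha hb =>
    rw [map_mul, ← mul_assoc, ha, mul_assoc, hb, mul_assoc]

theorem lift_comm {g : ℕ → S} (hg : ∀ a b, g a * g b = g b * g a) (v w : Word) :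
    FreeSemigroup.lift g v * FreeSemigroup.lift g w =
      FreeSemigroup.lift g w * FreeSemigroup.lift g v := by
  induction v using FreeSemigroup.recOnMul with
  | ih1 x => rw [FreeSemigroup.lift_of]; exact lift_comm1 hg _ _
  | ih2 a b ha hb =>
    rw [map_mul, mul_assoc, hb, ← mul_assoc, ha, mul_assoc]

theorem lift_le {g : ℕ → S} (hg : ∀ a b, g a * g b = g b * g a) (hi : ∀ a, g a * g a = g a)
    (w : Word) (y : ℕ) (hy : y ∈ lts w) :
    g y * FreeSemigroup.lift g w = FreeSemigroup.lift g w := by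
  induction w using FreeSemigroup.recOnMul with
  | ih1 x =>
    rw [lts_of, Finset.mem_singleton] at hy
    rw [hy, FreeSemigroup.lift_of, hi]
  | ih2 a b ha hb =>
    rw [lts_mul, Finset.mem_union] at hy
    rw [map_mul]
    rcases hy with hy | hy
    · rw [← mul_assoc, ha hy]
    · rw [← mul_assoc, lift_comm1 hg, mul_assoc, hb hy]

theorem lift_lts {g : ℕ → S} (hg : ∀ a b, g a * g b = g b * g a) (hi : ∀ a, g a * g a = g a)
    {v w : Word} (h : lts v = lts w) : FreeSemigroup.lift g v = FreeSemigroup.lift g w := by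
  have h1 : FreeSemigroup.lift g v * FreeSemigroup.lift g w = FreeSemigroup.lift g w :=
    ev_ge g v _ fun y hy => lift_le hg hi w y (h ▸ hy)
  have h2 : FreeSemigroup.lift g w * FreeSemigroup.lift g v = FreeSemigroup.lift g v :=
    ev_ge g w _ fun y hy => lift_le hg hi v y (h ▸ hy)
  rw [← h2, lift_comm hg, h1]

/-- **The free semilattice of rank three.** -/
theorem exists_free {x y z : S} (h : Ir x y z) : ∃ f : Finset (Fin 3) → S,
    (∀ s t : Finset (Fin 3), s.Nonempty → t.Nonempty → f s * f t = f (s ∪ t)) ∧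
    (∀ s t : Finset (Fin 3), s.Nonempty → t.Nonempty → f s = f t → s = t) ∧
    (f Finset.univ = x * y * z) ∧
    (∀ s : Finset (Fin 3), ∀ o : S, o * x = x → o * y = y → o * z = z → s.Nonempty →
      o * f s = f s) ∧
    (∀ s : Finset (Fin 3), ∀ o : S, x * o = x → y * o = y → z * o = z → s.Nonempty →
      f s * o = f s) ∧
    (∀ s : Finset (Fin 3), ∀ o : S, o * x = o → o * y = o → o * z = o → s.Nonempty →
      o * f s = o) ∧
    (∀ s : Finset (Fin 3), ∀ o : S, x * o = o → y * o = o → z * o = o → s.Nonempty →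
      f s * o = o) := by
  classical
  obtain ⟨⟨hx, hy, hz, hxy, hxz, hyz⟩, n1, n2, n3⟩ := h
  set g := gn x y z with hgdef
  have g0 : g 0 = x := by simp [g, gn]
  have g1 : g 1 = y := by simp [g, gn]
  have g2 : g 2 = z := by simp [g, gn]
  have hg : ∀ a b, g a * g b = g b * g a := by
    intro a b
    rcases gn_cases x y z a with h1 | h1 | h1 <;> rcases gn_cases x y z b with h2 | h2 | h2 <;>
      rw [← hgdef] at h1 h2 <;> rw [h1, h2]
    · exact hxy
    · exact hxz
    · exact hxy.symm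
    · exact hyz
    · exact hxz.symm
    · exact hyz.symm
  have hi : ∀ a, g a * g a = g a := by
    intro a
    rcases gn_cases x y z a with h1 | h1 | h1 <;> rw [← hgdef] at h1 <;> rw [h1]
    · exact hx
    · exact hy
    · exact hz
  have hw : ∀ s : Finset (Fin 3), ∃ w : Word, s.Nonempty → lts w = s.image Fin.val := by
    intro s
    by_cases hs : s.Nonempty
    · obtain ⟨w, hw⟩ := exists_word (s.image Fin.val) (hs.image _)
      exact ⟨w, fun _ => hw⟩
    · exact ⟨FreeSemigroup.of 0, fun h => absurd h hs⟩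
  choose W hW using hw
  let f : Finset (Fin 3) → S := fun s => FreeSemigroup.lift g (W s)
  have hfw : ∀ (s : Finset (Fin 3)) (w : Word), s.Nonempty → lts w = s.image Fin.val →
      f s = FreeSemigroup.lift g w := fun s w hs hw => lift_lts hg hi (by rw [hW s hs, hw])
  have hmul : ∀ s t : Finset (Fin 3), s.Nonempty → t.Nonempty → f s * f t = f (s ∪ t) := by
    intro s t hs ht
    rw [hfw (s ∪ t) (W s * W t) (hs.mono Finset.subset_union_left) (by
      rw [lts_mul, hW s hs, hW t ht, Finset.image_union]), map_mul]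
  have hu : f Finset.univ = x * y * z := by
    rw [hfw Finset.univ (FreeSemigroup.of 0 * FreeSemigroup.of 1 * FreeSemigroup.of 2)
      ⟨0, Finset.mem_univ _⟩ (by rw [lts_mul, lts_mul, lts_of, lts_of, lts_of]; decide),
      map_mul, map_mul, FreeSemigroup.lift_of, FreeSemigroup.lift_of, FreeSemigroup.lift_of,
      g0, g1, g2]
  have hc : ∀ i : Fin 3, f Finset.univ ≠ f {i}ᶜ := by
    intro i
    rw [hu]
    fin_cases i
    · rw [hfw _ (FreeSemigroup.of 1 * FreeSemigroup.of 2) ⟨1, by decide⟩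
        (by rw [lts_mul, lts_of, lts_of]; decide), map_mul, FreeSemigroup.lift_of,
        FreeSemigroup.lift_of, g1, g2]
      exact n3
    · rw [hfw _ (FreeSemigroup.of 0 * FreeSemigroup.of 2) ⟨0, by decide⟩
        (by rw [lts_mul, lts_of, lts_of]; decide), map_mul, FreeSemigroup.lift_of,
        FreeSemigroup.lift_of, g0, g2]
      exact n2
    · rw [hfw _ (FreeSemigroup.of 0 * FreeSemigroup.of 1) ⟨0, by decide⟩
        (by rw [lts_mul, lts_of, lts_of]; decide), map_mul, FreeSemigroup.lift_of,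
        FreeSemigroup.lift_of, g0, g1]
      exact n1
  have hsub : ∀ s t : Finset (Fin 3), s.Nonempty → t.Nonempty → f s = f t → s ⊆ t := by
    intro s t hs ht hst i his
    by_contra hit
    have hcne : ({i}ᶜ : Finset (Fin 3)).Nonempty := by
      fin_cases i <;> decide
    have h1 : t ∪ {i}ᶜ = {i}ᶜ := by
      rw [Finset.union_eq_right]
      intro j hj
      rw [Finset.mem_compl, Finset.mem_singleton]
      rintro rfl
      exact hit hj
    have h2 : s ∪ {i}ᶜ = Finset.univ := by
      rw [Finset.eq_univ_iff_forall]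
      intro j
      rw [Finset.mem_union, Finset.mem_compl, Finset.mem_singleton]
      by_cases hj : j = i
      · left; rw [hj]; exact his
      · right; exact hj
    apply hc i
    rw [← h2, ← hmul s _ hs hcne, hst, hmul t _ ht hcne, h1]
  refine ⟨f, hmul, fun s t hs ht h => Finset.Subset.antisymm (hsub s t hs ht h)
    (hsub t s ht hs h.symm), hu, ?_, ?_, ?_, ?_⟩
  · intro s o h1 h2 h3 _
    have key : ∀ w : Word, o * FreeSemigroup.lift g w = FreeSemigroup.lift g w := by
      have hg' : ∀ a, o * g a = g a := by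
        intro a
        rcases gn_cases x y z a with h | h | h <;> rw [← hgdef] at h <;> rw [h] <;> assumption
      intro w
      induction w using FreeSemigroup.recOnMul with
      | ih1 a => rw [FreeSemigroup.lift_of]; exact hg' a
      | ih2 a b ha hb => rw [map_mul, ← mul_assoc, ha]
    exact key _
  · intro s o h1 h2 h3 _
    have key : ∀ w : Word, FreeSemigroup.lift g w * o = FreeSemigroup.lift g w := by
      have hg' : ∀ a, g a * o = g a := by
        intro a
        rcases gn_cases x y z a with h | h | h <;> rw [← hgdef] at h <;> rw [h] <;> assumption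
      intro w
      induction w using FreeSemigroup.recOnMul with
      | ih1 a => rw [FreeSemigroup.lift_of]; exact hg' a
      | ih2 a b ha hb => rw [map_mul, mul_assoc, hb]
    exact key _
  · intro s o h1 h2 h3 _
    have key : ∀ w : Word, o * FreeSemigroup.lift g w = o := by
      have hg' : ∀ a, o * g a = o := by
        intro a
        rcases gn_cases x y z a with h | h | h <;> rw [← hgdef] at h <;> rw [h] <;> assumption
      intro w
      induction w using FreeSemigroup.recOnMul with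
      | ih1 a => rw [FreeSemigroup.lift_of]; exact hg' a
      | ih2 a b ha hb => rw [map_mul, ← mul_assoc, ha, hb]
    exact key _
  · intro s o h1 h2 h3 _
    have key : ∀ w : Word, FreeSemigroup.lift g w * o = o := by
      have hg' : ∀ a, g a * o = o := by
        intro a
        rcases gn_cases x y z a with h | h | h <;> rw [← hgdef] at h <;> rw [h] <;> assumption
      intro w
      induction w using FreeSemigroup.recOnMul with
      | ih1 a => rw [FreeSemigroup.lift_of]; exact hg' a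
      | ih2 a b ha hb => rw [map_mul, mul_assoc, hb, ha]
    exact key _

/-- three irredundant commuting idempotents with a common identity generate the cube -/
theorem exists_cube {x y z : S} (h : Ir x y z) (e : S) (hee : e * e = e)
    (h1 : e * x = x ∧ e * y = y ∧ e * z = z) (h2 : x * e = x ∧ y * e = y ∧ z * e = z) :
    ∃ f : Finset (Fin 3) → S, IsCube f := by
  classical
  obtain ⟨f, hmul, hinj, hu, k1, k2, k3, k4⟩ := exists_free h
  let F : Finset (Fin 3) → S := fun s => if s = ∅ then e else f s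
  have F0 : F ∅ = e := if_pos rfl
  have F1 : ∀ s : Finset (Fin 3), s.Nonempty → F s = f s := fun s hs =>
    if_neg (Finset.nonempty_iff_ne_empty.mp hs)
  have hne : ∀ s : Finset (Fin 3), s.Nonempty → f s ≠ e := by
    intro s hs hse
    obtain ⟨i, hi⟩ := hs
    obtain ⟨j, hj⟩ : ∃ j : Fin 3, j ≠ i := by
      fin_cases i
      · exact ⟨1, by decide⟩
      · exact ⟨0, by decide⟩
      · exact ⟨0, by decide⟩
    have h3 := hmul s {j} ⟨i, hi⟩ (Finset.singleton_nonempty _)
    rw [hse, k1 {j} e h1.1 h1.2.1 h1.2.2 (Finset.singleton_nonempty _)] at h3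
    have h4 := hinj _ _ (Finset.singleton_nonempty _)
      ((Finset.singleton_nonempty j).mono Finset.subset_union_right) h3
    have h5 : i ∈ ({j} : Finset (Fin 3)) := by
      rw [h4]; exact Finset.mem_union_left _ hi
    rw [Finset.mem_singleton] at h5
    exact hj h5.symm
  refine ⟨F, ?_, ?_⟩
  · intro s t hst
    rcases s.eq_empty_or_nonempty with rfl | hs <;> rcases t.eq_empty_or_nonempty with rfl | ht
    · rfl
    · rw [F0, F1 t ht] at hst
      exact absurd hst.symm (hne t ht)
    · rw [F0, F1 s hs] at hst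
      exact absurd hst (hne s hs)
    · rw [F1 s hs, F1 t ht] at hst
      exact hinj s t hs ht hst
  · intro s t
    rcases s.eq_empty_or_nonempty with rfl | hs <;> rcases t.eq_empty_or_nonempty with rfl | ht
    · rw [Finset.empty_union, F0, hee]
    · rw [Finset.empty_union, F0, F1 t ht, k1 t e h1.1 h1.2.1 h1.2.2 ht]
    · rw [Finset.union_empty, F0, F1 s hs, k2 s e h2.1 h2.2.1 h2.2.2 hs]
    · rw [F1 s hs, F1 t ht, F1 _ (hs.mono Finset.subset_union_left), hmul s t hs ht]

theorem exists_fz {x y z : S} (h : Ir x y z) (o : S) (hoo : o * o = o)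
    (h1 : o * x = o ∧ o * y = o ∧ o * z = o) (h2 : x * o = o ∧ y * o = o ∧ z * o = o)
    (hne : x * y * z ≠ o) : ∃ f : Finset (Fin 3) → S, IsFz f o := by
  classical
  obtain ⟨f, hmul, hinj, hu, k1, k2, k3, k4⟩ := exists_free h
  refine ⟨f, hmul, hinj, ?_, hoo⟩
  intro s hs
  refine ⟨?_, k3 s o h1.1 h1.2.1 h1.2.2 hs, k4 s o h2.1 h2.2.1 h2.2.2 hs⟩
  intro hso
  have h3 := hmul s Finset.univ hs ⟨0, Finset.mem_univ _⟩
  rw [hso, k3 _ o h1.1 h1.2.1 h1.2.2 ⟨0, Finset.mem_univ _⟩,
    Finset.union_eq_right.mpr (Finset.subset_univ s), hu] at h3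
  exact hne h3.symm

end

/-! ### Varieties closed under adjunctions -/

theorem ir_one {S : Type u} [Semigroup S] {x y z : S} (h : Ir x y z) :
    Ir (x : WithOne S) (y : WithOne S) (z : WithOne S) := by
  obtain ⟨⟨hx, hy, hz, hxy, hxz, hyz⟩, n1, n2, n3⟩ := h
  refine ⟨⟨?_, ?_, ?_, ?_, ?_, ?_⟩, ?_, ?_, ?_⟩
  · rw [← WithOne.coe_mul, hx]
  · rw [← WithOne.coe_mul, hy]
  · rw [← WithOne.coe_mul, hz]
  · rw [← WithOne.coe_mul, hxy, WithOne.coe_mul]
  · rw [← WithOne.coe_mul, hxz, WithOne.coe_mul]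
  · rw [← WithOne.coe_mul, hyz, WithOne.coe_mul]
  · rw [← WithOne.coe_mul, ← WithOne.coe_mul, Ne, WithOne.coe_inj]; exact n1
  · rw [← WithOne.coe_mul, ← WithOne.coe_mul, ← WithOne.coe_mul, Ne, WithOne.coe_inj]; exact n2
  · rw [← WithOne.coe_mul, ← WithOne.coe_mul, ← WithOne.coe_mul, Ne, WithOne.coe_inj]; exact n3

theorem ir_zero {S : Type u} [Semigroup S] {x y z : S} (h : Ir x y z) :
    Ir (x : WithZero S) (y : WithZero S) (z : WithZero S) := by
  obtain ⟨⟨hx, hy, hz, hxy, hxz, hyz⟩, n1, n2, n3⟩ := h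
  refine ⟨⟨?_, ?_, ?_, ?_, ?_, ?_⟩, ?_, ?_, ?_⟩
  · rw [← WithZero.coe_mul, hx]
  · rw [← WithZero.coe_mul, hy]
  · rw [← WithZero.coe_mul, hz]
  · rw [← WithZero.coe_mul, hxy, WithZero.coe_mul]
  · rw [← WithZero.coe_mul, hxz, WithZero.coe_mul]
  · rw [← WithZero.coe_mul, hyz, WithZero.coe_mul]
  · rw [← WithZero.coe_mul, ← WithZero.coe_mul, Ne, WithZero.coe_inj]; exact n1
  · rw [← WithZero.coe_mul, ← WithZero.coe_mul, ← WithZero.coe_mul, Ne, WithZero.coe_inj]
    exact n2
  · rw [← WithZero.coe_mul, ← WithZero.coe_mul, ← WithZero.coe_mul, Ne, WithZero.coe_inj]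
    exact n3

/-- closed under adjoining an identity -/
def ClosedOne (V : SgClass.{u}) : Prop := ∀ (S : Type u) [Semigroup S], V S → V (WithOne S)

/-- closed under adjoining a zero -/
def ClosedZero (V : SgClass.{u}) : Prop := ∀ (S : Type u) [Semigroup S], V S → V (WithZero S)

/-- generated by a family of semigroups with identity -/
def GenMon (V : SgClass.{u}) : Prop := ∃ (ι : Type u) (T : ι → Type u) (_ : ∀ i, Semigroup (T i)),
  (∀ i, ∃ e : T i, ∀ x : T i, e * x = x ∧ x * e = x) ∧ V = genF T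

theorem continuum_one {V : SgClass.{u}} (hV : IsInclVariety V) (hc : ClosedOne V)
    {S : Type u} [Semigroup S] (hS : V S) {x y z : S} (h : Ir x y z) :
    ∃ F : Set ℕ → SgClass.{u}, Function.Injective F ∧ ∀ A, F A ∈ InclSub V := by
  obtain ⟨f, hf⟩ := exists_cube (ir_one h) 1 (one_mul 1) ⟨one_mul _, one_mul _, one_mul _⟩
    ⟨mul_one _, mul_one _, mul_one _⟩
  exact continuum_of_cube hV (hc S hS) hf

theorem continuum_zero {V : SgClass.{u}} (hV : IsInclVariety V) (hc : ClosedZero V)
    {S : Type u} [Semigroup S] (hS : V S) {x y z : S} (h : Ir x y z) :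
    ∃ F : Set ℕ → SgClass.{u}, Function.Injective F ∧ ∀ A, F A ∈ InclSub V := by
  obtain ⟨f, hf⟩ := exists_fz (ir_zero h) 0 (mul_zero 0) ⟨zero_mul _, zero_mul _, zero_mul _⟩
    ⟨mul_zero _, mul_zero _, mul_zero _⟩ (by
      rw [← WithZero.coe_mul, ← WithZero.coe_mul]
      exact WithZero.coe_ne_zero)
  exact continuum_of_fz hV (hc S hS) hf

/-- in semilattices, breadth at most two is an identical inclusion -/
theorem btwo_iff {S : Type u} [Semigroup S] : BTwo S ↔ SatIncl S
    (FreeSemigroup.of 0 * FreeSemigroup.of 1 * FreeSemigroup.of 2)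
    {FreeSemigroup.of 0 * FreeSemigroup.of 1, FreeSemigroup.of 0 * FreeSemigroup.of 2,
      FreeSemigroup.of 1 * FreeSemigroup.of 2} := by
  constructor
  · intro h φ
    rcases h (φ (FreeSemigroup.of 0)) (φ (FreeSemigroup.of 1)) (φ (FreeSemigroup.of 2)) with
      h1 | h1 | h1
    · exact ⟨_, Or.inl rfl, by rw [map_mul, map_mul, h1]⟩
    · exact ⟨_, Or.inr (Or.inl rfl), by rw [map_mul, map_mul, h1, map_mul]⟩
    · exact ⟨_, Or.inr (Or.inr rfl), by rw [map_mul, map_mul, h1, map_mul]⟩
  · intro h x y z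
    obtain ⟨v, hv, hvu⟩ := h (FreeSemigroup.lift (gn x y z))
    have g0 : gn x y z 0 = x := by simp [gn]
    have g1 : gn x y z 1 = y := by simp [gn]
    have g2 : gn x y z 2 = z := by simp [gn]
    rw [map_mul, map_mul, FreeSemigroup.lift_of, FreeSemigroup.lift_of, FreeSemigroup.lift_of,
      g0, g1, g2] at hvu
    rcases hv with rfl | rfl | rfl
    · rw [map_mul, FreeSemigroup.lift_of, FreeSemigroup.lift_of, g0, g1] at hvu
      exact Or.inl hvu
    · rw [map_mul, FreeSemigroup.lift_of, FreeSemigroup.lift_of, g0, g2] at hvu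
      exact Or.inr (Or.inl hvu)
    · rw [map_mul, FreeSemigroup.lift_of, FreeSemigroup.lift_of, g1, g2] at hvu
      exact Or.inr (Or.inr hvu)

theorem ir_of_not {S : Type u} [Semigroup S] (hS : SL S) (h : ¬ BTwo S) :
    ∃ x y z : S, Ir x y z := by
  unfold BTwo at h
  push Not at h
  obtain ⟨x, y, z, h1, h2, h3⟩ := h
  exact ⟨x, y, z, ⟨hS.2 x, hS.2 y, hS.2 z, hS.1 x y, hS.1 x z, hS.1 y z⟩, h1, h2, h3⟩

theorem not_btwo {S : Type u} [Semigroup S] {x y z : S} (h : Ir x y z) : ¬ BTwo S := by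
  intro hb
  rcases hb x y z with h1 | h1 | h1
  · exact h.2.1 h1
  · exact h.2.2.1 h1
  · exact h.2.2.2 h1

theorem continuum_mon {V : SgClass.{u}} (hV : IsInclVariety V)
    (hSL : ∀ (S : Type u) [Semigroup S], V S → SL S) (hc : GenMon V)
    {S : Type u} [Semigroup S] (hS : V S) {x y z : S} (h : Ir x y z) :
    ∃ F : Set ℕ → SgClass.{u}, Function.Injective F ∧ ∀ A, F A ∈ InclSub V := by
  obtain ⟨ι, T, _, hT, rfl⟩ := hc
  have h1 : ∃ i, ¬ BTwo (T i) := by
    by_contra hcon
    push Not at hcon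
    apply not_btwo h
    rw [btwo_iff]
    exact hS _ _ fun i => btwo_iff.mp (hcon i)
  obtain ⟨i, hi⟩ := h1
  have hTi := genF_mem T i
  obtain ⟨x', y', z', h'⟩ := ir_of_not (hSL (T i) hTi) hi
  obtain ⟨e, he⟩ := hT i
  obtain ⟨f, hf⟩ := exists_cube h' e (he e).1 ⟨(he _).1, (he _).1, (he _).1⟩
    ⟨(he _).2, (he _).2, (he _).2⟩
  exact continuum_of_cube hV hTi hf

/-- **Dichotomy.** -/
theorem dichotomy {V : SgClass.{u}} (hV : IsInclVariety V)
    (hSL : ∀ (S : Type u) [Semigroup S], V S → SL S)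
    (hc : ClosedOne V ∨ ClosedZero V ∨ GenMon V) :
    ((∀ (S : Type u) [Semigroup S], V S → BTwo S) ∧ (InclSub V).Finite) ∨
    ((¬ ∀ (S : Type u) [Semigroup S], V S → BTwo S) ∧
      ∃ F : Set ℕ → SgClass.{u}, Function.Injective F ∧ ∀ A, F A ∈ InclSub V) := by
  by_cases h : ∀ (S : Type u) [Semigroup S], V S → BTwo S
  · exact Or.inl ⟨h, finite_of_btwo fun S _ hS => ⟨hSL S hS, h S hS⟩⟩
  · refine Or.inr ⟨h, ?_⟩
    push Not at h
    obtain ⟨S, _, hS, hb⟩ := h
    obtain ⟨x, y, z, hxyz⟩ := ir_of_not (hSL S hS) hb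
    rcases hc with hc | hc | hc
    · exact continuum_one hV hc hS hxyz
    · exact continuum_zero hV hc hS hxyz
    · exact continuum_mon hV hSL hc hS hxyz

theorem not_countable_of_continuum {V : SgClass.{u}}
    (h : ∃ F : Set ℕ → SgClass.{u}, Function.Injective F ∧ ∀ A, F A ∈ InclSub V) :
    ¬ (InclSub V).Countable := by
  rintro hc
  obtain ⟨F, hF, hA⟩ := h
  have h1 : (Set.range F).Countable := hc.mono (by rintro _ ⟨A, rfl⟩; exact hA A)
  have h2 := h1.to_subtype
  have h3 : Countable (Set ℕ) := Function.Injective.countable (f := Set.rangeFactorization F)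
    (fun A B h => hF (congrArg Subtype.val h))
  obtain ⟨f, hf⟩ := exists_injective_nat (Set ℕ)
  exact Function.cantor_injective f hf

end Pool.Agent.helper2.Inc
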